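import Pool.Agent.W52.DPOne
import Pool.Agent.W52.DPTwo
import Pool.Agent.W347.DPGood
import Pool.Agent.W347.DPAA
import Pool.Agent.W598.DPplow
import Pool.Agent.W822.PD.Stm

/-!
PD-CEN: many plus events with the prolonged crossings (second moment method).
-/

set_option autoImplicit false

namespace Pool.Agent.W583.PDCen

open H974 H973 H12S H934E Finset H389NS H984P H984N
open Pool.Agent.W92.DP Pool.Agent.W52.DPInd Pool.Agent.W52.DPOne Pool.Agent.W347.DPGood
open Pool.Agent.W822.PD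

/-! ### Harris for decreasing events -/

theorem dd {S : Finset Edg} {A B : Finset Edg → Prop} (hA : ∀ F G, F ⊆ G → A G → A F)
    (hB : ∀ F G, F ⊆ G → B G → B F) :
    PQ (1/2) S A * PQ (1/2) S B ≤ PQ (1/2) S (fun F => A F ∧ B F) := by
  have h := Pr_harris_dd (p := fun _ : Edg => (1/2 : ℝ)) H973.okhalf (S := S)
    (A := fun F => ¬ A F) (B := fun F => ¬ B F)
    (fun F G hFG _ hF hG => hF (hA F G hFG hG)) (fun F G hFG _ hF hG => hF (hB F G hFG hG))
  rw [Pr_not, Pr_not] at h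
  have e : Pr (fun _ : Edg => (1/2 : ℝ)) S (fun F => ¬ ¬ A F ∧ ¬ ¬ B F) =
      Pr (fun _ : Edg => (1/2 : ℝ)) S (fun F => A F ∧ B F) := by
    apply Pr_congr
    intro F _
    rw [not_not, not_not]
  rw [e] at h
  unfold PQ
  have e2 : ∀ x : ℝ, 1 - (1 - x) = x := fun x => by ring
  rw [e2, e2] at h
  exact h

/-! ### Sets of edges -/

theorem SA_SC {U : ℤ} (hU : 0 ≤ U) : SA U ⊆ SC U := by
  intro e he
  unfold SA at he
  rw [mem_ES, Pool.Agent.W52.DPInd.mem_HA, Pool.Agent.W52.DPInd.mem_HA] at he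
  unfold SC
  obtain ⟨x, y, _ | _⟩ := e
  · rw [src_mk, tgt_false] at he
    simp only [mem_RE_false] at he ⊢
    omega
  · rw [src_mk, tgt_true] at he
    simp only [mem_RE_true] at he ⊢
    omega

/-- the region of the open crossings -/
noncomputable def R0' (U : ℤ) : Finset Edg := RE (-(17 * U)) (-U) (-(28 * U)) (12 * U)

/-- the region of the dual crossings -/
noncomputable def R1' (U : ℤ) : Finset Edg := R1 U ∪ RE U (6 * U) (36 * U) (68 * U)

theorem R0'_SC {U : ℤ} (hU : 1 ≤ U) : R0' U ⊆ SC U :=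
  RE_subset (by omega) (by omega) (by omega) (by omega)

theorem R1'_SC {U : ℤ} (hU : 1 ≤ U) : R1' U ⊆ SC U :=
  Finset.union_subset ((R1_sub hU).trans (SA_SC (by omega)))
    (RE_subset (by omega) (by omega) (by omega) (by omega))

theorem XV_R1' {U : ℤ} (hU : 1 ≤ U) {v : Vtx} (hv : v ∈ core4 U) {b w N : ℕ}
    (hb : (b : ℤ) = 4 * U) (hw : (w : ℤ) ≤ U) (hN : (N : ℤ) = 16 * U) {g : Edg}
    (hg : g ∈ XV b w N) : sh v g ∉ R1' U := by
  intro hc
  unfold R1' at hc
  rcases Finset.mem_union.1 hc with hc | hc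
  · exact XV_R1 hU hv hb hw hN hg hc
  · rw [mem_core4] at hv
    unfold XV boxE at hg
    unfold sh at hc
    obtain ⟨x, y, _ | _⟩ := g
    · simp only [Finset.mem_union, mem_RE_false] at hg hc
      omega
    · simp only [Finset.mem_union, mem_RE_true] at hg hc
      omega

theorem XH_R0' {U : ℤ} (hU : 1 ≤ U) {v : Vtx} (hv : v ∈ core4 U) {b w N : ℕ}
    (hb : (b : ℤ) = 4 * U) (hw : (w : ℤ) ≤ U) (hN : (N : ℤ) = 16 * U) {g : Edg}
    (hg : g ∈ XH b w N) : sh v g ∉ R0' U := by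
  rw [mem_core4] at hv
  unfold XH boxE at hg
  unfold sh R0'
  obtain ⟨x, y, _ | _⟩ := g
  · simp only [Finset.mem_union, mem_RE_false] at hg ⊢
    omega
  · simp only [Finset.mem_union, mem_RE_true] at hg ⊢
    omega

theorem R0'_R1' {U : ℤ} (hU : 1 ≤ U) {g : Edg} (hg : g ∈ R0' U) : g ∉ R1' U := by
  unfold R0' at hg
  unfold R1' R1
  obtain ⟨x, y, _ | _⟩ := g
  · simp only [Finset.mem_union, mem_RE_false] at hg ⊢
    omega
  · simp only [Finset.mem_union, mem_RE_true] at hg ⊢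
    omega

/-! ### The crossings -/

/-- open crossings -/
def GO' (U : ℤ) (F : Finset Edg) : Prop := GO U F ∧ TBc (-(17 * U)) (-U) (-(28 * U)) (12 * U) F

/-- dual crossings -/
def GD' (U : ℤ) (F : Finset Edg) : Prop := GD U F ∧ DTB U (6 * U) (36 * U) (68 * U) F

theorem GO_mono {U : ℤ} {F G : Finset Edg} (h : F ⊆ G) (hF : GO U F) : GO U G :=
  ⟨hF.1.mono h, hF.2.mono h⟩

theorem GO'_mono {U : ℤ} {F G : Finset Edg} (h : F ⊆ G) (hF : GO' U F) : GO' U G :=
  ⟨GO_mono h hF.1, hF.2.mono h⟩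

theorem GD_decr {U : ℤ} {F G : Finset Edg} (h : F ⊆ G) (hG : GD U G) : GD U F :=
  ⟨⟨DTB_decr h hG.1.1, DLR_decr h hG.1.2⟩, DTB_decr h hG.2⟩

theorem GD'_decr {U : ℤ} {F G : Finset Edg} (h : F ⊆ G) (hG : GD' U G) : GD' U F :=
  ⟨GD_decr h hG.1, DTB_decr h hG.2⟩

theorem GO'_local {U : ℤ} (hU : 1 ≤ U) (F : Finset Edg) : GO' U F ↔ GO' U (F ∩ R0' U) := by
  unfold GO' GO R0'
  rw [← LRc_local (LRE_subset_RE.trans (RE_subset (by omega) (by omega) (by omega) (by omega))),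
    ← TBc_local (TBE_subset_RE.trans (RE_subset (by omega) (by omega) (by omega) (by omega))),
    ← TBc_local TBE_subset_RE]

theorem GD'_local {U : ℤ} (F : Finset Edg) : GD' U F ↔ GD' U (F ∩ R1' U) := by
  unfold GD' GD R1'
  have h1 : R1 U ⊆ R1 U ∪ RE U (6 * U) (36 * U) (68 * U) := Finset.subset_union_left
  rw [← DTB_local (S := R1 U ∪ RE U (6 * U) (36 * U) (68 * U))
      (LRE_subset_RE.trans (Finset.subset_union_left.trans h1)),
    ← DLR_local (S := R1 U ∪ RE U (6 * U) (36 * U) (68 * U))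
      (TBE_subset_RE.trans ((Finset.subset_union_left.trans
      Finset.subset_union_right).trans h1)),
    ← DTB_local (S := R1 U ∪ RE U (6 * U) (36 * U) (68 * U))
      (LRE_subset_RE.trans ((Finset.subset_union_right.trans
      Finset.subset_union_right).trans h1)),
    ← DTB_local (S := R1 U ∪ RE U (6 * U) (36 * U) (68 * U))
      (LRE_subset_RE.trans Finset.subset_union_right)]

theorem pr_GO' {U : ℤ} (hU : 2 ≤ U) {S : Finset Edg} (hS : SC U ⊆ S) :
    (dlt * dlt) * dlt ≤ PQ (1/2) S (GO' U) := by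
  have hd0 := dlt_pos
  have s2 : TBE (-(17 * U)) (-U) (-(28 * U)) (12 * U) ⊆ S :=
    (TBE_subset_RE.trans (R0'_SC (by omega))).trans hS
  have p1 := pr_GO hU ((SA_SC (by omega)).trans hS)
  have p2 : dlt ≤ PQ (1/2) S (TBc (-(17 * U)) (-U) (-(28 * U)) (12 * U)) := by
    have e : PQ (1/2) S (TBc (-(17 * U)) (-U) (-(28 * U)) (12 * U)) =
      hh (1/2) (12 * U - -(28 * U)) (-U - -(17 * U)) := pr_TBc (1/2) s2
    rw [e]
    exact rswL (m := U) (by omega) (by omega) (by omega) (by omega)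
  have p3 : PQ (1/2) S (GO U) * PQ (1/2) S (TBc (-(17 * U)) (-U) (-(28 * U)) (12 * U)) ≤
      PQ (1/2) S (GO' U) :=
    Pr_harris H973.okhalf (fun F G hFG _ hF => GO_mono hFG hF) (TBc_incr _ _ _ _ _)
  refine le_trans ?_ p3
  exact mul_le_mul p1 p2 hd0.le ((mul_pos hd0 hd0).le.trans p1)

theorem pr_GD' {U : ℤ} (hU : 2 ≤ U) {S : Finset Edg} (hS : SC U ⊆ S) :
    (dlt * (dlt * dlt)) * dlt ≤ PQ (1/2) S (GD' U) := by
  have hd0 := dlt_pos
  have e3 : (1:ℝ) - 1/2 = 1/2 := by norm_num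
  have s1 : LRE U (6 * U) (36 * U) (68 * U) ⊆ S :=
    (LRE_subset_RE.trans (RE_subset (by omega) (by omega) (by omega) (by omega))).trans hS
  have p1 := pr_GD hU ((SA_SC (by omega)).trans hS)
  have p2 : dlt ≤ 1 - PQ (1/2) S (LRc U (6 * U) (36 * U) (68 * U)) := by
    have e : PQ (1/2) S (LRc U (6 * U) (36 * U) (68 * U)) =
      hh (1/2) (6 * U - U) (68 * U - 36 * U) := pr_LRc (1/2) s1
    have e2 := hh_dual (q := 1/2) (w := 6 * U - U) (h := 68 * U - 36 * U) (by omega) (by omega)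
    rw [e3] at e2
    have e4 := rswL (m := U) (w := 68 * U - 36 * U + 1) (h := 6 * U - U - 1)
      (by omega) (by omega) (by omega) (by omega)
    rw [e, e2]
    linarith
  have p4 : 1 - PQ (1/2) S (LRc U (6 * U) (36 * U) (68 * U)) ≤
      PQ (1/2) S (DTB U (6 * U) (36 * U) (68 * U)) := by
    have h := Pr_not (p := fun _ : Edg => (1/2 : ℝ)) S (LRc U (6 * U) (36 * U) (68 * U))
    unfold PQ
    rw [← h]
    apply Pr_mono H973.okhalf
    intro F _ hF
    exact DTB_of (by omega) (by omega) hF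
  have p3 : PQ (1/2) S (GD U) * PQ (1/2) S (DTB U (6 * U) (36 * U) (68 * U)) ≤
      PQ (1/2) S (GD' U) :=
    dd (fun F G hFG hG => GD_decr hFG hG) (fun F G hFG hG => DTB_decr hFG hG)
  refine le_trans ?_ p3
  exact mul_le_mul p1 (p2.trans p4) hd0.le ((by positivity : 0 ≤ dlt * (dlt * dlt)).trans p1)

/-! ### One-point lower bound -/

/-- One-point lower bound, with the prolonged crossings. -/
theorem one' : ∃ (L M : ℕ) (c : ℝ), 2 ≤ L ∧ 64 ≤ M ∧ 0 < c ∧ ∀ r : ℕ, 1 ≤ r →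
    ∀ v ∈ core4 (L * (M * r) : ℕ), ∀ S : Finset Edg, SC (L * (M * r) : ℕ) ⊆ S →
      c * ((M * r : ℕ) : ℝ) ^ (-(5/4) : ℝ) ≤
        PQ (1/2) S (fun F => E4 L (M * r) v F ∧ Cc (L * (M * r) : ℕ) F) := by
  obtain ⟨L, M, c, hL, hM, hc, hP⟩ := Pool.Agent.W598.DP.plow
  have hd0 := dlt_pos
  refine ⟨L, M, c * (1 / 2) * (dlt * dlt * dlt) * (dlt * (dlt * dlt) * dlt), hL, hM,
    by positivity, ?_⟩
  intro r hr v hv S hS
  have hm : 64 ≤ M * r := le_trans hM (Nat.le_mul_of_pos_right M hr)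
  have hmL : M * r ≤ L * (M * r) := Nat.le_mul_of_pos_left _ (by omega)
  set m := M * r with hmdef
  obtain ⟨U, hUdef⟩ : ∃ U : ℤ, U = ((L * m : ℕ) : ℤ) := ⟨_, rfl⟩
  have hU : 2 ≤ U := by rw [hUdef]; omega
  have e4 : 4 * L * m = 4 * (L * m) := by ring
  have e16 : 16 * L * m = 16 * (L * m) := by ring
  have hb : ((4 * L * m : ℕ) : ℤ) = 4 * U := by rw [e4, hUdef]; push_cast; rfl
  have hw : ((m : ℕ) : ℤ) ≤ U := by rw [hUdef]; omega
  have hN : ((16 * L * m : ℕ) : ℤ) = 16 * U := by rw [e16, hUdef]; push_cast; rfl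
  rw [← hUdef] at hS ⊢
  have hE : c * (m : ℝ) ^ (-(5/4) : ℝ) * (1 / 2) ≤ PQ (1/2) S (fun F => E4 L m v F) := by
    obtain ⟨β, hβ⟩ := hP r hr
    refine (mul_le_mul_of_nonneg_right hβ (by norm_num)).trans
      (one_point (by omega) (by omega) hv ?_ β)
    rw [← hUdef]
    exact (SA_SC (by omega)).trans hS
  rw [← hUdef] at hv
  have hGO := pr_GO' hU hS
  have hGD := pr_GD' hU hS
  have hR0S : R0' U ⊆ S := (R0'_SC (by omega)).trans hS
  have hR1S : R1' U ⊆ S := (R1'_SC (by omega)).trans hS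
  -- first gluing
  have g1 : PQ (1/2) S (fun F => E4 L m v F) * PQ (1/2) S (GO' U) ≤
      PQ (1/2) S (fun F => E4 L m v F ∧ GO' U F) := by
    apply H934F.t1a S (R0' U) (fun F => E4 L m v F) (GO' U) hR0S
    · intro F G _ hFG hGF hF
      refine E4_mono (by omega) (by omega) (fun g _ h => hFG h) (fun g hg h => ?_) hF
      rcases Finset.mem_union.1 (hGF h) with h1 | h1
      · exact h1
      · exact absurd h1 (XH_R0' (by omega) hv hb hw hN hg)
    · intro F G hFG hF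
      exact GO'_mono hFG hF
    · intro F
      exact GO'_local (by omega) F
  have g2 : PQ (1/2) S (fun F => E4 L m v F ∧ GO' U F) * PQ (1/2) S (GD' U) ≤
      PQ (1/2) S (fun F => (E4 L m v F ∧ GO' U F) ∧ GD' U F) := by
    apply H934F.t1b S (R1' U) (fun F => E4 L m v F ∧ GO' U F) (GD' U) hR1S
    · rintro F G _ hGF hFG ⟨h1, h2⟩
      refine ⟨E4_mono (by omega) (by omega) (fun g hg h => ?_) (fun g _ h => hGF h) h1, ?_⟩
      · rcases Finset.mem_union.1 (hFG h) with h3 | h3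
        · exact h3
        · exact absurd h3 (XV_R1' (by omega) hv hb hw hN hg)
      · rw [GO'_local (by omega)] at h2 ⊢
        refine GO'_mono ?_ h2
        intro g hg
        rw [Finset.mem_inter] at hg ⊢
        rcases Finset.mem_union.1 (hFG hg.1) with h3 | h3
        · exact ⟨h3, hg.2⟩
        · exact absurd h3 (R0'_R1' (by omega) hg.2)
    · intro F G hFG hG
      exact GD'_decr hFG hG
    · intro F
      exact GD'_local F
  have q0 : 0 ≤ PQ (1/2) S (fun F => E4 L m v F) := Pr_nonneg H973.okhalf _ _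
  calc c * (1 / 2) * (dlt * dlt * dlt) * (dlt * (dlt * dlt) * dlt) * (m : ℝ) ^ (-(5/4) : ℝ)
      = ((c * (m : ℝ) ^ (-(5/4) : ℝ) * (1 / 2)) * (dlt * dlt * dlt)) *
        (dlt * (dlt * dlt) * dlt) := by ring
    _ ≤ (PQ (1/2) S (fun F => E4 L m v F) * PQ (1/2) S (GO' U)) *
        (dlt * (dlt * dlt) * dlt) := by
        apply mul_le_mul_of_nonneg_right _ (by positivity)
        exact mul_le_mul hE hGO (by positivity) q0
    _ ≤ PQ (1/2) S (fun F => E4 L m v F ∧ GO' U F) * PQ (1/2) S (GD' U) :=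
        mul_le_mul g1 hGD (by positivity) (Pr_nonneg H973.okhalf _ _)
    _ ≤ PQ (1/2) S (fun F => (E4 L m v F ∧ GO' U F) ∧ GD' U F) := g2
    _ ≤ PQ (1/2) S (fun F => E4 L m v F ∧ Cc U F) :=
        Pr_mono H973.okhalf (fun F _ hF => ⟨hF.1.1, hF.1.2, hF.2⟩)

theorem two : St_two := Pool.Agent.W52.DPTwo.two Pool.Agent.W347.DPAA.aa

theorem cen : PD_CEN := by
  obtain ⟨L, M, c, hL, hM, hc, hone⟩ := one'
  obtain ⟨C0, hC0, hE0⟩ := t5_EE two (t := 0) le_rfl (by norm_num) L hL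
  have hL0 : (0:ℝ) < L := by
    have : 0 < L := by omega
    exact_mod_cast this
  obtain ⟨A, hA⟩ : ∃ A : ℝ, A = 4 * (L : ℝ) ^ 2 * c := ⟨_, rfl⟩
  have hA0 : 0 < A := by rw [hA]; positivity
  set p : ℝ := A ^ 2 / (4 * C0) with hp
  have hp0 : 0 < p := by positivity
  refine ⟨L, M, A / 2, p, hL, hM, by positivity, hp0, ?_, ?_⟩
  · intro r hr S hS
    obtain ⟨m, hm⟩ : ∃ m : ℕ, m = M * r := ⟨_, rfl⟩
    have hm64 : 64 ≤ m := by
      rw [hm]
      calc 64 ≤ M := hM
        _ = M * 1 := by ring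
        _ ≤ M * r := Nat.mul_le_mul_left _ hr
    have hone' := hone r hr
    rw [← hm] at hone' hS ⊢
    have hm0 : (0:ℝ) < m := by
      have : 0 < m := by omega
      exact_mod_cast this
    have hU1 : (1 : ℤ) ≤ ((L * m : ℕ) : ℤ) := by
      have : 0 < L * m := Nat.mul_pos (by omega) (by omega)
      exact_mod_cast this
    have hUr : (((L * m : ℕ) : ℤ) : ℝ) = (L : ℝ) * m := by push_cast; ring
    have hU1r : (1:ℝ) ≤ (L : ℝ) * m := by
      rw [← hUr]; exact_mod_cast hU1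
    have hU : 0 < (m : ℝ) ^ (3/4 : ℝ) := Real.rpow_pos_of_pos hm0 _
    have hU2 : (m : ℝ) ^ (3/4 : ℝ) * (m : ℝ) ^ (3/4 : ℝ) = (m : ℝ) ^ (3/2 - (0:ℝ)) := by
      rw [← Real.rpow_add hm0]; norm_num
    set X : Finset Edg → ℝ := fun F => ((V4 L m F).card : ℝ) * ind (Cc (L * m : ℕ) F) with hX
    have hX0 : ∀ F, 0 ≤ X F := fun F => mul_nonneg (Nat.cast_nonneg _) (ind_nonneg _)
    -- first moment
    have l1 : A * (m : ℝ) ^ (3/4 : ℝ) ≤ EE S X := by
      have e1 : EE S X = ∑ v ∈ core4 (L * m : ℕ),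
          Q S (fun F => E4 L m v F ∧ Cc (L * m : ℕ) F) := by
        have e0 : EE S X = EE S (fun F => ∑ v ∈ core4 (L * m : ℕ),
            ind (E4 L m v F ∧ Cc (L * m : ℕ) F)) := by
          congr 1
          funext F
          rw [hX]
          simp only
          rw [t5_N, Finset.sum_mul]
          apply Finset.sum_congr rfl
          intro v _
          rw [ind_and (E4 L m v F)]
        rw [e0]
        unfold EE
        rw [Ex_sum]
        rfl
      rw [e1]
      have i1 : ∀ v ∈ core4 (L * m : ℕ), c * (m : ℝ) ^ (-(5/4) : ℝ) ≤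
          Q S (fun F => E4 L m v F ∧ Cc (L * m : ℕ) F) := by
        intro v hv
        exact hone' v hv S hS
      refine le_trans ?_ (Finset.sum_le_sum i1)
      rw [Finset.sum_const, nsmul_eq_mul, t5_card (by omega), hUr]
      have e3 : (m : ℝ) ^ 2 * (m : ℝ) ^ (-(5/4) : ℝ) = (m : ℝ) ^ (3/4 : ℝ) := by
        rw [← Real.rpow_natCast, ← Real.rpow_add hm0]
        congr 1
        norm_num
      rw [← e3]
      have h4 : 4 * ((L : ℝ) * m) ^ 2 ≤ (2 * ((L : ℝ) * m) + 1) ^ 2 := by nlinarith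
      have h5 : 0 ≤ c * (m : ℝ) ^ (-(5/4) : ℝ) := by
        have := Real.rpow_nonneg hm0.le (-(5/4) : ℝ)
        positivity
      calc A * ((m : ℝ) ^ 2 * (m : ℝ) ^ (-(5/4) : ℝ)) =
          4 * ((L : ℝ) * m) ^ 2 * (c * (m : ℝ) ^ (-(5/4) : ℝ)) := by rw [hA]; ring
        _ ≤ _ := mul_le_mul_of_nonneg_right h4 h5
    -- second moment
    have l2 : EE S (fun F => X F * X F) ≤ C0 * (m : ℝ) ^ (3/2 - (0:ℝ)) := by
      refine le_trans ?_ (hE0 m hm64 S ((SA_SC (by omega)).trans hS))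
      unfold EE
      apply Ex_mono H973.okhalf
      intro F _
      rw [← t5_sq]
      have i1 : X F ≤ ((V4 L m F).card : ℝ) := by
        rw [hX]
        simp only
        have := ind_le_one (Cc (L * m : ℕ) F)
        exact mul_le_of_le_one_right (Nat.cast_nonneg _) this
      exact mul_le_mul i1 i1 (hX0 F) (Nat.cast_nonneg _)
    have k := paley (S := S) (f := X) (fun F _ => hX0 F)
      (m := A * (m : ℝ) ^ (3/4 : ℝ)) (V := C0 * (m : ℝ) ^ (3/2 - (0:ℝ)))
      (by positivity) (by positivity) l1 l2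
    have e3 : (A * (m : ℝ) ^ (3/4 : ℝ)) ^ 2 /
        (4 * (C0 * (m : ℝ) ^ (3/2 - (0:ℝ)))) = p := by
      rw [← hU2, hp]
      field_simp
    rw [e3] at k
    refine k.trans ?_
    apply Pr_mono H973.okhalf
    intro F _ hF
    have hpos : 0 < X F := lt_of_lt_of_le (by positivity) hF
    have hcr : Cc (L * m : ℕ) F := by
      by_contra hn
      rw [hX] at hpos
      simp only at hpos
      rw [ind_not_of hn, mul_zero] at hpos
      exact lt_irrefl _ hpos
    refine ⟨hcr, ?_⟩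
    rw [hX] at hF
    simp only at hF
    rw [ind_of hcr, mul_one] at hF
    refine le_trans (le_of_eq ?_) hF
    ring
  · intro t ht ht1 ε hε
    obtain ⟨Ct, hCt, hEt⟩ := t5_EE two (t := t) ht.le ht1 L hL
    refine ⟨Ct / ε, by positivity, ?_⟩
    intro r hr S hS
    obtain ⟨m, hm⟩ : ∃ m : ℕ, m = M * r := ⟨_, rfl⟩
    have hm64 : 64 ≤ m := by
      rw [hm]
      calc 64 ≤ M := hM
        _ = M * 1 := by ring
        _ ≤ M * r := Nat.mul_le_mul_left _ hr
    rw [← hm] at hS ⊢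
    have hm0 : (0:ℝ) < m := by
      have : 0 < m := by omega
      exact_mod_cast this
    have hU3 : 0 < (m : ℝ) ^ (3/2 - t) := Real.rpow_pos_of_pos hm0 _
    have i2 := markov (S := S) (f := En4 t L m) (fun F _ => t5_En_nonneg t L m F)
      (t := Ct / ε * (m : ℝ) ^ (3/2 - t)) (by positivity)
    have i3 : EE S (En4 t L m) / (Ct / ε * (m : ℝ) ^ (3/2 - t)) ≤ ε := by
      rw [div_le_iff₀ (by positivity)]
      refine (hEt m hm64 S ((SA_SC (by omega)).trans hS)).trans (le_of_eq ?_)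
      field_simp
    refine le_trans ?_ (i2.trans i3)
    apply Pr_mono H973.okhalf
    intro F _ hF
    exact hF.le

end Pool.Agent.W583.PDCen
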