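import Pool.Agent.W784.RR.Defs
import Pool.Agent.W784.PS.Lower
import Pool.Agent.Helper88.RB.P_exists_min
import Pool.Agent.Helper88.RB.P_exists_bdd
import Pool.Agent.Helper88.RB.P_EI_pos
import Pool.Agent.Helper88.RB.P_upper
import Pool.Agent.Helper88.RB.P_PX_cont
import Pool.Agent.Helper88.RB.P_PX_lim
import Pool.Agent.Helper88.RB.P_PX_ne_top
import Pool.Agent.Helper88.RB.P_UR_smooth
import Pool.Agent.Helper88.RB.P_UR_lap
import Pool.Agent.Helper88.RB.P_GR_pos
import Pool.Agent.Helper88.RB.P_max_principle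
import Pool.Agent.Helper88.RB.P_equilibrium

/-!
# RR-10: equilibrium measures of unions of balls, `n - 2 < s < n`
-/

set_option autoImplicit false
open MeasureTheory Set Filter Topology
open scoped ENNReal NNReal

namespace Pool.Agent.W583.RR

open Pool.Agent.Helper88.RB
open Pool.Agent.W784.PS (lower')

theorem max_plane {n : ℕ} {S : Set (E n)} (U : E n → ℝ) (cont : Continuous U)
    (one : ∀ x ∈ S, U x = 1) (lim : Tendsto U (cocompact (E n)) (𝓝 0))
    (smooth : ∀ x, x ∉ S → ∀ e : E n, ContDiffAt ℝ 2 (fun ε : ℝ => U (x + ε • e)) 0)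
    (eqn : ∀ x, x ∉ S → 0 < ∑ j : Fin n,
      deriv (deriv (fun ε : ℝ => U (x + ε • EuclideanSpace.single j (1 : ℝ)))) 0) :
    (∀ x, U x ≤ 1) ∧ (∀ x, x ∉ S → U x < 1) := by
  have key : ∀ x, x ∉ S → (∀ x', U x' ≤ U x) → False := by
    intro x hx hmax
    have h1 : ∀ j : Fin n, deriv (deriv (fun ε : ℝ =>
        U (x + ε • EuclideanSpace.single j (1 : ℝ)))) 0 ≤ 0 := by
      intro j
      apply mp_deriv2_nonpos _ (smooth x hx _)
      refine Filter.Eventually.of_forall fun ε => ?_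
      have := hmax (x + ε • EuclideanSpace.single j (1 : ℝ))
      simp only [zero_smul, add_zero]
      exact this
    have h3 := Finset.sum_nonpos (s := (Finset.univ : Finset (Fin n))) fun j _ => h1 j
    have := eqn x hx
    linarith
  have hle : ∀ x, U x ≤ 1 := by
    intro x0
    by_contra hcon
    push Not at hcon
    have hev : ∀ᶠ p in cocompact (E n), U p ≤ U x0 := by
      have h1 : ∀ᶠ p in cocompact (E n), U p < 1 :=
        lim.eventually (gt_mem_nhds (by norm_num : (0 : ℝ) < 1))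
      filter_upwards [h1] with p hp
      linarith
    obtain ⟨q, hq⟩ := cont.exists_forall_ge' x0 hev
    have hq0 := hq x0
    refine key q ?_ hq
    intro hqS
    have := one q hqS
    linarith
  refine ⟨hle, ?_⟩
  intro x hx
  rcases lt_or_eq_of_le (hle x) with h | h
  · exact h
  · exact (key x hx (fun x' => by rw [h]; exact hle x')).elim

theorem UR_lap_plane {n : ℕ} {s : ℝ} (hs : 0 < s) {S : Set (E n)} (hS : IsCompact S)
    {μ : Measure (E n)} [IsFiniteMeasure μ] (hμ : μ Sᶜ = 0) (x : E n) (hx : x ∉ S) :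
    (∑ j : Fin n, deriv (deriv (fun ε : ℝ =>
      UR s μ (x + ε • EuclideanSpace.single j (1 : ℝ)) 0)) 0) = s * (s + 2 - n) * GR s μ x 0 := by
  have h1 := (UR_lap hs hS hμ x 0 (Or.inl hx)).2
  have h2 := (UR_smooth hs hS hμ x 0 (Or.inl hx) 0 1).2.2
  have h3 : (fun ε : ℝ => UR s μ (x + ε • (0 : E n)) (0 + ε * 1)) = fun ε : ℝ => UR s μ x (0 + ε) := by
    funext ε
    rw [smul_zero, add_zero, mul_one]
  rw [h3] at h2
  have h4 : ∫ w, ((-s) * (‖(0 : E n)‖ ^ 2 + (1:ℝ) ^ 2) * (‖x - w‖ ^ 2 + (0:ℝ) ^ 2) ^ (-s / 2 - 1) +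
      s * (s + 2) * (inner ℝ (x - w) (0 : E n) + 0 * 1) ^ 2 *
        (‖x - w‖ ^ 2 + (0:ℝ) ^ 2) ^ (-s / 2 - 2)) ∂μ = - s * GR s μ x 0 := by
    unfold GR
    rw [← integral_const_mul]
    refine integral_congr_ae (Eventually.of_forall fun w => ?_)
    simp
  rw [h4] at h2
  rw [h2] at h1
  linarith

theorem tendsto_zero_section (n : ℕ) :
    Tendsto (fun x : E n => (x, (0 : ℝ))) (cocompact (E n)) (cocompact (E n × ℝ)) := by
  intro s hs
  obtain ⟨t, ht, hts⟩ := mem_cocompact.1 hs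
  refine mem_cocompact.2 ⟨Prod.fst '' t, ht.image continuous_fst, fun x hx => hts fun h => hx ?_⟩
  exact ⟨(x, 0), h, rfl⟩

/-- the potential off the plane is strictly smaller -/
theorem PX_lt {n : ℕ} {s : ℝ} (hs : 0 < s) {ν : Measure (E n)} (hν : ν ≠ 0) (x : E n) (y : ℝ)
    (hy : y ≠ 0) (h : PE s ν x ≠ ∞) : PX s ν x y < PE s ν x := by
  have hk : ∀ w : E n, (ENNReal.ofReal (Real.sqrt (‖x - w‖ ^ 2 + y ^ 2))) ^ (-s) <
      (ENNReal.ofReal (dist x w)) ^ (-s) := by
    intro w
    rw [ENNReal.rpow_neg, ENNReal.rpow_neg, ENNReal.inv_lt_inv]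
    refine ENNReal.rpow_lt_rpow ?_ hs
    have h1 : dist x w < Real.sqrt (‖x - w‖ ^ 2 + y ^ 2) := by
      rw [dist_eq_norm]
      refine Real.lt_sqrt_of_sq_lt ?_
      have : 0 < y ^ 2 := by positivity
      linarith
    have h0 : 0 ≤ dist x w := dist_nonneg
    exact (ENNReal.ofReal_lt_ofReal_iff (by linarith)).2 h1
  unfold PX PE
  refine lintegral_strict_mono hν ?_ ?_ (Eventually.of_forall hk)
  · have : Measurable fun w : E n => (ENNReal.ofReal (dist x w)) ^ (-s) := by fun_prop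
    exact this.aemeasurable
  · exact ne_top_of_le_ne_top h (lintegral_mono fun w => (hk w).le)

theorem PNewton : Pool.Agent.W784.RR.PNewton := by
  intro n s hn hs hs2 hsn K hK hne δ hδ hball
  have hint : ∀ c : E n, (interior (Metric.closedBall c δ)).Nonempty := fun c =>
    ⟨c, Metric.ball_subset_interior_closedBall (Metric.mem_ball_self hδ)⟩
  have hI0 : EI s K ≠ 0 := (EI_pos hs hK).ne'
  have hIt : EI s K ≠ ∞ := by
    obtain ⟨x, hx⟩ := hne
    obtain ⟨c, hc1, hc2⟩ := hball x hx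
    obtain ⟨σ, s1, s2, M, hM, hb⟩ := exists_bdd hs hsn (hint c)
    have h1 : EI s K ≤ En s σ := by
      unfold EI
      exact iInf_le_of_le σ (iInf_le_of_le s1 (iInf_le_of_le
        (measure_mono_null (compl_subset_compl.2 hc2) s2) le_rfl))
    have h2 : En s σ ≤ M := by
      unfold En
      calc (∫⁻ x, ∫⁻ y, (ENNReal.ofReal (dist x y)) ^ (-s) ∂σ ∂σ) ≤ ∫⁻ _x, M ∂σ :=
            lintegral_mono (fun x => hb x)
        _ = M := by rw [lintegral_const, s1, mul_one]
    exact ne_top_of_le_ne_top hM (h1.trans h2)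
  refine ⟨hI0, hIt, ?_⟩
  obtain ⟨μ0, m1, m2, m3⟩ := exists_min hs hK hne
  have hlow : ∀ x ∈ K, EI s K ≤ PE s μ0 x := by
    intro x hx
    obtain ⟨c, hc1, hc2⟩ := hball x hx
    exact lower' hs hsn hK (isCompact_closedBall c δ) hc2 (convex_closedBall c δ) (hint c) m1 m2 m3 x hc1
  have hup := fun x hx => upper hs m1 m2 m3 hIt hlow x hx
  obtain ⟨μ, hμdef⟩ : ∃ μ : Measure (E n), μ = (EI s K)⁻¹ • μ0 := ⟨_, rfl⟩
  have hμuniv : μ Set.univ = (EI s K)⁻¹ := by
    rw [hμdef, Measure.smul_apply, m1, smul_eq_mul, mul_one]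
  have hμK : μ Kᶜ = 0 := by
    rw [hμdef, Measure.smul_apply, m2, smul_zero]
  have hcinv : (EI s K)⁻¹ ≠ ∞ := ENNReal.inv_ne_top.2 hI0
  have hfin : IsFiniteMeasure μ := ⟨by rw [hμuniv]; exact lt_top_iff_ne_top.2 hcinv⟩
  have hPE : ∀ x, PE s μ x = (EI s K)⁻¹ * PE s μ0 x := by
    intro x
    unfold PE
    rw [hμdef, lintegral_smul_measure, smul_eq_mul]
  obtain ⟨S, hSdef⟩ : ∃ S : Set (E n), S = μ0.support := ⟨_, rfl⟩
  have hSclosed : IsClosed S := by rw [hSdef]; exact Measure.isClosed_support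
  have hSK : S ⊆ K := by
    intro x hx
    by_contra hxK
    rw [hSdef, Measure.mem_support_iff_forall] at hx
    have := hx Kᶜ (hK.isClosed.isOpen_compl.mem_nhds hxK)
    rw [m2] at this
    exact lt_irrefl _ this
  have hS : IsCompact S := hK.of_isClosed_subset hSclosed hSK
  have hμS : μ Sᶜ = 0 := by
    rw [hμdef, Measure.smul_apply, hSdef, Measure.measure_compl_support, smul_zero]
  have hS1 : ∀ x ∈ S, PE s μ x = 1 := by
    intro x hx
    have hxS := hx
    rw [hSdef, Measure.mem_support_iff_forall] at hx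
    have e1 : PE s μ0 x = EI s K := le_antisymm (hup x hx) (hlow x (hSK hxS))
    rw [hPE, e1, ENNReal.inv_mul_cancel hI0 hIt]
  have hPXcont := PX_cont hs hS hμS hS1
  have hPXtop2 : ∀ x y, PX s μ x y ≠ ∞ := by
    intro x y
    by_cases hxy : x ∉ S ∨ y ≠ 0
    · exact (PX_ne_top hs hS hμS x y hxy).1
    · push Not at hxy
      rw [hxy.2, aux_PX_zero, hS1 x hxy.1]
      exact ENNReal.one_ne_top
  have hPXtop : ∀ x, PX s μ x 0 ≠ ∞ := fun x => hPXtop2 x 0
  have hcont2 : Continuous (fun p : E n × ℝ => (PX s μ p.1 p.2).toReal) := by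
    rw [continuous_iff_continuousAt]
    intro p
    have h1 : ContinuousAt (fun p : E n × ℝ => PX s μ p.1 p.2) p := hPXcont.continuousAt
    exact (ENNReal.tendsto_toReal (hPXtop2 p.1 p.2)).comp h1
  have hcont : Continuous (fun x : E n => (PX s μ x 0).toReal) := by
    have h0 : Continuous fun x : E n => ((x, (0:ℝ)) : E n × ℝ) := continuous_id.prodMk continuous_const
    have h1 : Continuous ((fun p : E n × ℝ => (PX s μ p.1 p.2).toReal) ∘ fun x : E n => (x, (0:ℝ))) :=
      hcont2.comp h0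
    exact h1
  have hev : ∀ x, x ∉ S → ∀ (e : E n),
      (fun ε : ℝ => (PX s μ (x + ε • e) 0).toReal) =ᶠ[𝓝 0]
      (fun ε : ℝ => UR s μ (x + ε • e) 0) := by
    intro x hx e
    have h1 := aux_good hSclosed x 0 (Or.inl hx) e 0
    filter_upwards [h1] with ε hε
    rcases hε with hε | hε
    · exact (PX_ne_top hs hS hμS _ _ (Or.inl hε)).2
    · simp at hε
  have hμne : μ Set.univ ≠ 0 := by
    rw [hμuniv]
    exact ENNReal.inv_ne_zero.2 hIt
  have hlim : Tendsto (fun x : E n => (PX s μ x 0).toReal) (cocompact (E n)) (𝓝 0) := by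
    have h1 : Tendsto ((fun p : E n × ℝ => (PX s μ p.1 p.2).toReal) ∘ fun x : E n => (x, (0:ℝ)))
        (cocompact (E n)) (𝓝 0) := (PX_lim hs hS hμS).comp (tendsto_zero_section n)
    exact h1
  obtain ⟨hle, hlt⟩ := max_plane (S := S) (fun x => (PX s μ x 0).toReal) hcont
    (by intro x hx; show (PX s μ x 0).toReal = 1; rw [aux_PX_zero, hS1 x hx, ENNReal.toReal_one])
    hlim
    (by
      intro x hx e
      have h1 := (UR_smooth hs hS hμS x 0 (Or.inl hx) e 0).1
      simp only [mul_zero, add_zero] at h1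
      exact h1.congr_of_eventuallyEq (hev x hx e))
    (by
      intro x hx
      have h1 : ∀ j : Fin n, deriv (deriv (fun ε : ℝ =>
          (PX s μ (x + ε • EuclideanSpace.single j (1 : ℝ)) 0).toReal)) 0 =
          deriv (deriv (fun ε : ℝ => UR s μ (x + ε • EuclideanSpace.single j (1 : ℝ)) 0)) 0 :=
        fun j => (hev x hx _).deriv.deriv_eq
      rw [Finset.sum_congr rfl fun j _ => h1 j, UR_lap_plane hs hS hμS x hx]
      have h2 := GR_pos hs hS hμS hμne x 0 (Or.inl hx)
      have h3 : 0 < s + 2 - n := by linarith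
      positivity)
  have hPEle : ∀ x, PE s μ x ≤ 1 := by
    intro x
    rw [← aux_PX_zero, ← ENNReal.ofReal_toReal (hPXtop x), ← ENNReal.ofReal_one]
    exact ENNReal.ofReal_le_ofReal (hle x)
  refine ⟨μ, hfin, hμK, hμuniv, hcont2, hPEle, ?_, ?_⟩
  · intro x hx
    refine le_antisymm (hPEle x) ?_
    rw [hPE, ← ENNReal.inv_mul_cancel hI0 hIt]
    exact mul_le_mul_right (hlow x hx) _
  · intro x y hxy
    by_cases hy : y = 0
    · subst hy
      exact hlt x (fun h => (hxy.resolve_right (by simp)) (hSK h))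
    · have h1 : PX s μ x y < PE s μ x := by
        refine PX_lt hs ?_ x y hy (ne_top_of_le_ne_top ENNReal.one_ne_top (hPEle x))
        intro h0
        rw [h0] at hμne
        exact hμne (by simp)
      have h2 := h1.trans_le (hPEle x)
      rw [← ENNReal.toReal_one]
      exact (ENNReal.toReal_lt_toReal (hPXtop2 x y) ENNReal.one_ne_top).2 h2

end Pool.Agent.W583.RR
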