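import Pool.Agent.W711.HT.Geo
import Pool.Agent.W505.VC.Five

/-!
HT-POTH: the potential at a hinge.
-/

set_option autoImplicit false

namespace Pool.Agent.W583.HTP

open Filter Topology Metric Set MeasureTheory
open Pool.Agent.W711.HT
open Pool.Agent.W709.VC (Dv)
open Pool.Agent.W505.VC
open scoped Real ComplexConjugate Interval

/-- `log (2 cos (v / 2))` -/
noncomputable def ell (v : ℂ) : ℂ := Complex.log (2 * Complex.cos (v / 2))

theorem cos_re (w : ℂ) : (Complex.cos w).re = Real.cos w.re * Real.cosh w.im := by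
  have h : Complex.cos w = ((Real.cos w.re * Real.cosh w.im : ℝ) : ℂ) +
      ((-(Real.sin w.re * Real.sinh w.im) : ℝ) : ℂ) * Complex.I := by
    rw [Complex.cos_eq]
    push_cast
    ring
  rw [h, Complex.add_re, Complex.ofReal_re, Complex.re_ofReal_mul, Complex.I_re, mul_zero,
    add_zero]

theorem cos_re_pos {w : ℂ} (h : |w.re| < π / 2) : 0 < (Complex.cos w).re := by
  rw [cos_re]
  rw [abs_lt] at h
  exact mul_pos (Real.cos_pos_of_mem_Ioo ⟨by linarith [h.1], h.2⟩) (Real.cosh_pos _)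

theorem half_re (v : ℂ) : (v / 2).re = v.re / 2 := by
  have : v / 2 = v / ((2 : ℝ) : ℂ) := by push_cast; rfl
  rw [this, Complex.div_ofReal_re]

theorem two_mul_re (v : ℂ) : (2 * v).re = 2 * v.re := by
  have : 2 * v = ((2 : ℝ) : ℂ) * v := by push_cast; rfl
  rw [this, Complex.re_ofReal_mul]

theorem two_cos_pos {v : ℂ} (h : |v.re| < π) : 0 < (2 * Complex.cos (v / 2)).re := by
  have h1 : |(v / 2).re| < π / 2 := by
    rw [half_re, abs_div, abs_of_pos (by norm_num : (0:ℝ) < 2)]
    linarith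
  rw [two_mul_re]
  linarith [cos_re_pos h1]

theorem ball_re {v : ℂ} (h : v ∈ ball (0 : ℂ) π) : |v.re| < π := by
  rw [mem_ball_zero_iff] at h
  exact (Complex.abs_re_le_norm v).trans_lt h

theorem ell_diff : DifferentiableOn ℂ ell (ball (0 : ℂ) π) := by
  intro v hv
  have h1 := two_cos_pos (ball_re hv)
  have h2 : DifferentiableAt ℂ (fun v : ℂ => 2 * Complex.cos (v / 2)) v := by fun_prop
  exact (h2.clog (Or.inl h1)).differentiableWithinAt

theorem exists_prim : ∃ Λ : ℂ → ℂ, Λ 0 = 0 ∧ ∀ z ∈ ball (0 : ℂ) π, HasDerivAt Λ (ell z) z :=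
  ell_diff.isExactOn_ball.with_val_at 0 0

/-- the derivative of `2 cos (s v / 2)` along the segment -/
theorem ld_cos {v : ℂ} {t : ℝ} (hc : Complex.cos (t * v / 2) ≠ 0) :
    LD (fun s : ℝ => Complex.cos (s * v / 2))
      (-(v / 2) * (Complex.sin (t * v / 2) / Complex.cos (t * v / 2))) t := by
  unfold LD
  have h1 : HasDerivAt (fun s : ℂ => s * v / 2) (v / 2) (t : ℂ) := by
    simpa using ((hasDerivAt_id (t : ℂ)).mul_const v).div_const 2
  refine h1.ccos.comp_ofReal.congr_deriv ?_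
  field_simp

theorem ld_exp (w : ℂ) (t : ℝ) : LD (fun s : ℝ => Complex.exp (s * w)) w t := by
  unfold LD
  have h1 : HasDerivAt (fun s : ℝ => (s : ℂ) * w) w t := by
    have := (Complex.ofRealCLM.hasDerivAt (x := t)).mul_const w
    simpa only [Complex.ofRealCLM_apply, Complex.ofReal_one, one_mul] using this
  refine h1.cexp.congr_deriv ?_
  ring

theorem Dv_neg_one : Dv (-1) = 0 := by
  have h := Dv_conj (-1)
  rw [map_neg, map_one] at h
  linarith

/-- the logarithm of a product of two numbers with positive real part -/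
theorem log_mul_of_pos {a b : ℂ} (ha : 0 < a.re) (hb : 0 < b.re) :
    Complex.log (a * b) = Complex.log a + Complex.log b := by
  have ha0 : a ≠ 0 := by
    intro h; rw [h] at ha; simp at ha
  have hb0 : b ≠ 0 := by
    intro h; rw [h] at hb; simp at hb
  have h1 : |a.arg| < π / 2 := Complex.abs_arg_lt_pi_div_two_iff.2 (Or.inl ha)
  have h2 : |b.arg| < π / 2 := Complex.abs_arg_lt_pi_div_two_iff.2 (Or.inl hb)
  rw [abs_lt] at h1 h2
  exact Complex.log_mul ha0 hb0 ⟨by linarith [h1.1, h2.1], by linarith [h1.2, h2.2]⟩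

theorem log_div_of_pos {a b : ℂ} (ha : 0 < a.re) (hb : 0 < b.re) :
    (Complex.log (a / b)).im = a.arg - b.arg := by
  have ha0 : a ≠ 0 := by
    intro h; rw [h] at ha; simp at ha
  have hb0 : b ≠ 0 := by
    intro h; rw [h] at hb; simp at hb
  have h1 : |a.arg| < π / 2 := Complex.abs_arg_lt_pi_div_two_iff.2 (Or.inl ha)
  have h2 : |b.arg| < π / 2 := Complex.abs_arg_lt_pi_div_two_iff.2 (Or.inl hb)
  rw [abs_lt] at h1 h2
  have h3 : b⁻¹.arg = -b.arg := by
    rw [Complex.arg_inv, if_neg (by intro h; linarith [h2.2, Real.pi_pos])]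
  rw [div_eq_mul_inv, Complex.log_mul ha0 (inv_ne_zero hb0)
    ⟨by rw [h3]; linarith [h1.1, h2.2], by rw [h3]; linarith [h1.2, h2.1]⟩, Complex.add_im,
    Complex.log_im, Complex.log_im, h3]
  ring

theorem arg_two_mul (a : ℂ) : (2 * a).arg = a.arg := by
  have : 2 * a = ((2 : ℝ) : ℂ) * a := by push_cast; rfl
  rw [this, Complex.arg_real_mul a (by norm_num)]

theorem exp_im_ne {v : ℂ} {t : ℝ} (ht0 : 0 < t) (ht1 : t < 1) (h0 : 0 < v.re) (h1 : v.re < π) :
    (-Complex.exp (t * (-(Complex.I * v)))).im ≠ 0 := by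
  rw [Complex.neg_im, Complex.exp_im]
  have e : (t * (-(Complex.I * v))).im = -(t * v.re) := by
    rw [Complex.im_ofReal_mul, Complex.neg_im, Complex.I_mul_im]
    ring
  rw [e, Real.sin_neg]
  have hs : 0 < Real.sin (t * v.re) := by
    apply Real.sin_pos_of_pos_of_lt_pi (by positivity)
    calc t * v.re < 1 * v.re := by
          exact mul_lt_mul_of_pos_right ht1 h0
      _ < π := by linarith
  have he := Real.exp_pos (t * (-(Complex.I * v))).re
  intro h
  have : Real.exp (t * (-(Complex.I * v))).re * Real.sin (t * v.re) = 0 := by linarith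
  rcases mul_eq_zero.1 this with h' | h'
  · exact he.ne' h'
  · exact hs.ne' h'

/-- `Dv (-e^(-iv)) = Re Λ(v) + Im v * arg cos (v / 2)` -/
theorem dvE {Λ : ℂ → ℂ} (hΛ0 : Λ 0 = 0) (hΛ : ∀ z ∈ ball (0 : ℂ) π, HasDerivAt Λ (ell z) z)
    {v : ℂ} (hv : v ∈ ball (0 : ℂ) π) (hr : 0 < v.re) :
    Dv (-Complex.exp (-(Complex.I * v))) = (Λ v).re + v.im * (Complex.cos (v / 2)).arg := by
  have hpi := Real.pi_pos
  have hmem : ∀ t : ℝ, 0 ≤ t → t ≤ 1 → (t : ℂ) * v ∈ ball (0 : ℂ) π := by
    intro t h0 h1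
    rw [mem_ball_zero_iff] at hv ⊢
    rw [norm_mul, Complex.norm_real, Real.norm_eq_abs, abs_of_nonneg h0]
    have := norm_nonneg v
    nlinarith
  have hcos : ∀ t : ℝ, 0 ≤ t → t ≤ 1 → 0 < (Complex.cos (t * v / 2)).re := by
    intro t h0 h1
    have := two_cos_pos (ball_re (hmem t h0 h1))
    rw [two_mul_re] at this
    linarith
  set h : ℝ → ℝ := fun t => Dv (-Complex.exp (t * (-(Complex.I * v)))) -
    ((Λ (t * v)).re + t * v.im * (Complex.cos (t * v / 2)).arg) with hh
  have hcont : ContinuousOn h (Icc 0 1) := by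
    rw [hh]
    apply ContinuousOn.sub
    · apply Dv_cont.comp_continuousOn
      fun_prop
    · apply ContinuousOn.add
      · apply Complex.continuous_re.comp_continuousOn
        intro t ht
        have h1 : ContinuousAt Λ ((t : ℂ) * v) := (hΛ _ (hmem t ht.1 ht.2)).continuousAt
        have h2 : ContinuousAt (fun s : ℝ => (s : ℂ) * v) t := by fun_prop
        exact (ContinuousAt.comp (f := fun s : ℝ => (s : ℂ) * v) h1 h2).continuousWithinAt
      · apply ContinuousOn.mul (by fun_prop)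
        intro t ht
        have h1 : ContinuousAt Complex.arg (Complex.cos (t * v / 2)) :=
          Complex.continuousAt_arg (Or.inl (hcos t ht.1 ht.2))
        have h2 : ContinuousAt (fun s : ℝ => Complex.cos (s * v / 2)) t := by fun_prop
        exact (ContinuousAt.comp (f := fun s : ℝ => Complex.cos (s * v / 2)) h1
          h2).continuousWithinAt
  have hder : ∀ t ∈ Ioo (0:ℝ) 1, HasDerivAt h 0 t := by
    intro t ht
    have hc := hcos t ht.1.le ht.2.le
    have hc0 : Complex.cos (t * v / 2) ≠ 0 := by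
      intro h0; rw [h0] at hc; simp at hc
    obtain ⟨pc, hpc⟩ : ∃ pc : ℂ, pc = -(v / 2) * (Complex.sin (t * v / 2) / Complex.cos (t * v / 2)) :=
      ⟨_, rfl⟩
    have d1 := ld_cos hc0
    rw [← hpc] at d1
    -- the function `f`
    have df : LD (fun s : ℝ => -Complex.exp (s * (-(Complex.I * v)))) (-(Complex.I * v)) t := by
      have := (ld_exp (-(Complex.I * v)) t)
      unfold LD at this ⊢
      refine this.neg.congr_deriv ?_
      ring
    -- `1 - f = 2 cos e^(-isv/2)`
    have dq : LD (fun s : ℝ => 1 - -Complex.exp (s * (-(Complex.I * v))))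
        (0 + pc + -(Complex.I * v) / 2) t := by
      have h1 := ((LD.const 2 t).mul d1).mul (ld_exp (-(Complex.I * v) / 2) t)
      refine h1.congr (Eventually.of_forall fun s => ?_)
      simp only
      have e1 : Complex.cos (s * v / 2) =
          (Complex.exp (s * v / 2 * Complex.I) + Complex.exp (-(s * v / 2) * Complex.I)) / 2 := rfl
      rw [e1]
      have e2 : 2 * ((Complex.exp (s * v / 2 * Complex.I) +
          Complex.exp (-(s * v / 2) * Complex.I)) / 2) *
          Complex.exp (s * (-(Complex.I * v) / 2)) =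
          Complex.exp (s * v / 2 * Complex.I) * Complex.exp (s * (-(Complex.I * v) / 2)) +
          Complex.exp (-(s * v / 2) * Complex.I) * Complex.exp (s * (-(Complex.I * v) / 2)) := by
        ring
      rw [e2, ← Complex.exp_add, ← Complex.exp_add]
      have e3 : s * v / 2 * Complex.I + s * (-(Complex.I * v) / 2) = 0 := by ring
      have e4 : -(s * v / 2) * Complex.I + s * (-(Complex.I * v) / 2) =
        s * (-(Complex.I * v)) := by ring
      rw [e3, e4, Complex.exp_zero]
      ring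
    have hre : v.re < π := (abs_lt.1 (ball_re hv)).2
    have d2 := df.dv dq (exp_im_ne ht.1 ht.2 hr hre)
    -- `Λ`
    have d3 : HasDerivAt (fun s : ℝ => (Λ (s * v)).re) (v * ell (t * v)).re t := by
      have h1 : HasDerivAt (fun s : ℝ => (s : ℂ) * v) v t := by
        have := (Complex.ofRealCLM.hasDerivAt (x := t)).mul_const v
        simpa only [Complex.ofRealCLM_apply, Complex.ofReal_one, one_mul] using this
      have h2 := HasDerivAt.scomp t (hΛ _ (hmem t ht.1.le ht.2.le)) h1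
      have h3 := Complex.reCLM.hasFDerivAt.comp_hasDerivAt t h2
      simpa only [Function.comp_def, Complex.reCLM_apply, smul_eq_mul] using h3
    -- the argument
    have d4 : HasDerivAt (fun s : ℝ => (Complex.cos (s * v / 2)).arg) pc.im t := by
      have h1 : HasDerivAt (fun s : ℝ => Complex.log (Complex.cos (s * v / 2)))
          (pc * Complex.cos (t * v / 2) / Complex.cos (t * v / 2)) t :=
        HasDerivAt.clog_real d1 (Or.inl hc)
      rw [mul_div_cancel_right₀ _ hc0] at h1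
      have h3 := Complex.imCLM.hasFDerivAt.comp_hasDerivAt t h1
      simpa only [Function.comp_def, Complex.imCLM_apply, Complex.log_im] using h3
    have d5 : HasDerivAt (fun s : ℝ => s * v.im * (Complex.cos (s * v / 2)).arg)
        (v.im * (Complex.cos (t * v / 2)).arg + t * v.im * pc.im) t := by
      have h1 : HasDerivAt (fun s : ℝ => s * v.im) v.im t := by
        simpa using (hasDerivAt_id t).mul_const v.im
      exact h1.mul d4
    refine (d2.sub (d3.add d5)).congr_deriv ?_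
    -- the algebra
    have n1 : Real.log ‖-Complex.exp (t * (-(Complex.I * v)))‖ = t * v.im := by
      rw [norm_neg, Complex.norm_exp, Real.log_exp, Complex.re_ofReal_mul, Complex.neg_re,
        Complex.I_mul_re]
      ring
    have n2 : Real.log ‖1 - -Complex.exp (t * (-(Complex.I * v)))‖ =
        Real.log ‖2 * Complex.cos (t * v / 2)‖ + t * v.im / 2 := by
      have e0 : 1 - -Complex.exp (t * (-(Complex.I * v))) =
          2 * Complex.cos (t * v / 2) * Complex.exp (t * (-(Complex.I * v) / 2)) := by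
        have e1 : Complex.cos (t * v / 2) =
          (Complex.exp (t * v / 2 * Complex.I) + Complex.exp (-(t * v / 2) * Complex.I)) / 2 := rfl
        rw [e1]
        have e2 : 2 * ((Complex.exp (t * v / 2 * Complex.I) +
            Complex.exp (-(t * v / 2) * Complex.I)) / 2) *
            Complex.exp (t * (-(Complex.I * v) / 2)) =
            Complex.exp (t * v / 2 * Complex.I) * Complex.exp (t * (-(Complex.I * v) / 2)) +
            Complex.exp (-(t * v / 2) * Complex.I) * Complex.exp (t * (-(Complex.I * v) / 2)) := by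
          ring
        rw [e2, ← Complex.exp_add, ← Complex.exp_add]
        have e3 : t * v / 2 * Complex.I + t * (-(Complex.I * v) / 2) = 0 := by ring
        have e4 : -(t * v / 2) * Complex.I + t * (-(Complex.I * v) / 2) =
          t * (-(Complex.I * v)) := by ring
        rw [e3, e4, Complex.exp_zero]
        ring
      have hn : ‖2 * Complex.cos (t * v / 2)‖ ≠ 0 :=
        norm_ne_zero_iff.2 (mul_ne_zero two_ne_zero hc0)
      rw [e0, norm_mul, Real.log_mul hn (Complex.norm_exp _ ▸ (Real.exp_pos _).ne'),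
        Complex.norm_exp, Real.log_exp, Complex.re_ofReal_mul, half_re, Complex.neg_re,
        Complex.I_mul_re]
      ring
    have n3 : (v * ell (t * v)).re = v.re * Real.log ‖2 * Complex.cos (t * v / 2)‖ -
        v.im * (Complex.cos (t * v / 2)).arg := by
      unfold ell
      rw [Complex.mul_re, Complex.log_re, Complex.log_im, arg_two_mul]
    have n4 : (-(Complex.I * v)).im = -v.re := by
      rw [Complex.neg_im, Complex.I_mul_im]
    have n5 : (0 + pc + -(Complex.I * v) / 2).im = pc.im - v.re / 2 := by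
      have : (-(Complex.I * v) / 2).im = -v.re / 2 := by
        have e : -(Complex.I * v) / 2 = -(Complex.I * v) / ((2 : ℝ) : ℂ) := by push_cast; rfl
        rw [e, Complex.div_ofReal_im, n4]
      rw [zero_add, Complex.add_im, this]
      ring
    rw [n1, n2, n3, n4, n5]
    ring
  obtain ⟨c, _, hc⟩ := exists_hasDerivAt_eq_slope h (fun _ => 0) one_pos hcont hder
  have h01 : h 1 = h 0 := by
    have : (h 1 - h 0) / (1 - 0) = 0 := hc.symm
    rw [sub_zero, div_one] at this
    linarith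
  have h0 : h 0 = 0 := by
    rw [hh]
    simp [hΛ0, Dv_neg_one]
  rw [h0, hh] at h01
  simp only [Complex.ofReal_one, one_mul] at h01
  linarith

/-! ### The function `rrF` -/

theorem ell_neg (v : ℂ) : ell (-v) = ell v := by
  unfold ell
  rw [neg_div, Complex.cos_neg]

theorem hasDerivAt_path {Λ : ℂ → ℂ} (hΛ : ∀ z ∈ ball (0 : ℂ) π, HasDerivAt Λ (ell z) z)
    (u w : ℂ) {t : ℝ} (ht : u * t + w ∈ ball (0 : ℂ) π) :
    HasDerivAt (fun s : ℝ => Λ (u * s + w)) (u * ell (u * t + w)) t := by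
  have h1 : HasDerivAt (fun s : ℂ => u * s + w) u (t : ℂ) := by
    simpa using ((hasDerivAt_id (t : ℂ)).const_mul u).add_const w
  have h2 := (HasDerivAt.comp (h := fun s : ℂ => u * s + w) (t : ℂ) (hΛ _ ht) h1).comp_ofReal
  refine h2.congr_deriv ?_
  ring

theorem cont_path (u w : ℂ) (h : ∀ t ∈ Icc (0:ℝ) 1, u * t + w ∈ ball (0 : ℂ) π) :
    ContinuousOn (fun s : ℝ => u * ell (u * s + w)) (Icc 0 1) := by
  apply ContinuousOn.mul continuousOn_const
  exact ell_diff.continuousOn.comp (by fun_prop) h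

theorem odd_prim {Λ : ℂ → ℂ} (hΛ0 : Λ 0 = 0)
    (hΛ : ∀ z ∈ ball (0 : ℂ) π, HasDerivAt Λ (ell z) z) {z : ℂ} (hz : z ∈ ball (0 : ℂ) π) :
    Λ z + Λ (-z) = 0 := by
  have hmem : ∀ t ∈ Icc (0:ℝ) 1, z * t + 0 ∈ ball (0 : ℂ) π := by
    intro t ht
    rw [mem_ball_zero_iff] at hz ⊢
    rw [add_zero, norm_mul, Complex.norm_real, Real.norm_eq_abs, abs_of_nonneg ht.1]
    have := norm_nonneg z
    nlinarith [ht.2]
  have hmem' : ∀ t ∈ Icc (0:ℝ) 1, -z * t + 0 ∈ ball (0 : ℂ) π := by
    intro t ht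
    have := hmem t ht
    rw [mem_ball_zero_iff] at this ⊢
    rw [add_zero] at this ⊢
    rwa [neg_mul, norm_neg]
  have hd : ∀ t ∈ uIcc (0:ℝ) 1, HasDerivAt (fun s : ℝ => Λ (z * s + 0) + Λ (-z * s + 0))
      ((fun _ : ℝ => (0 : ℂ)) t) t := by
    intro t ht
    rw [uIcc_of_le zero_le_one] at ht
    refine ((hasDerivAt_path hΛ z 0 (hmem t ht)).add
      (hasDerivAt_path hΛ (-z) 0 (hmem' t ht))).congr_deriv ?_
    have e : -z * (t : ℂ) + 0 = -(z * t + 0) := by ring
    rw [e, ell_neg]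
    ring
  have h := intervalIntegral.integral_eq_sub_of_hasDerivAt hd (by simp)
  simp only [intervalIntegral.integral_zero, Complex.ofReal_one, mul_one, add_zero,
    Complex.ofReal_zero, mul_zero, hΛ0, sub_zero] at h
  exact h.symm

theorem ell_add {θ ψ : ℂ} (h1 : |(θ + ψ).re| < π) (h2 : |(θ - ψ).re| < π) :
    ell (θ + ψ) + ell (θ - ψ) = Complex.log (2 * Complex.cos ψ + 2 * Complex.cos θ) := by
  unfold ell
  rw [← log_mul_of_pos (two_cos_pos h1) (two_cos_pos h2)]
  congr 1
  have h := Complex.cos_add_cos θ ψ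
  have e : 2 * Complex.cos ψ + 2 * Complex.cos θ = 2 * (Complex.cos θ + Complex.cos ψ) := by ring
  rw [e, h]
  ring

theorem norm_u {δ : ℂ} (hδ : ‖δ - 1 / 4‖ ≤ 1 / 16) : ‖2 * π * δ‖ ≤ 5 * π / 8 := by
  have h1 : ‖δ‖ ≤ 5 / 16 := by
    have e : δ = (δ - 1 / 4) + 1 / 4 := by ring
    have h2 := norm_add_le (δ - 1 / 4) (1 / 4)
    rw [← e] at h2
    have h3 : ‖(1 / 4 : ℂ)‖ = 1 / 4 := by
      rw [norm_div, norm_one, Complex.norm_ofNat]
    rw [h3] at h2
    linarith
  rw [norm_mul, norm_mul, Complex.norm_ofNat, Complex.norm_real, Real.norm_eq_abs,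
    abs_of_pos Real.pi_pos]
  nlinarith [Real.pi_pos]

theorem mem_path {u w : ℂ} (hu : ‖u‖ ≤ 5 * π / 8) (hw : ‖w‖ ≤ 1 / 4) {t : ℝ}
    (ht : t ∈ Icc (0:ℝ) 1) : u * t + w ∈ ball (0 : ℂ) π := by
  rw [mem_ball_zero_iff]
  refine (norm_add_le _ _).trans_lt ?_
  rw [norm_mul, Complex.norm_real, Real.norm_eq_abs, abs_of_nonneg ht.1]
  have h1 : ‖u‖ * t ≤ ‖u‖ * 1 := mul_le_mul_of_nonneg_left ht.2 (norm_nonneg _)
  have := Real.pi_gt_three
  linarith

theorem rr_eq {Λ : ℂ → ℂ} (hΛ0 : Λ 0 = 0)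
    (hΛ : ∀ z ∈ ball (0 : ℂ) π, HasDerivAt Λ (ell z) z) {δ ψ : ℂ} (hδ : ‖δ - 1 / 4‖ ≤ 1 / 16)
    (hψ : ‖ψ‖ ≤ 1 / 4) :
    2 * π * rrF δ ψ = Λ (2 * π * δ + ψ) + Λ (2 * π * δ - ψ) := by
  obtain ⟨u, hu⟩ : ∃ u : ℂ, u = 2 * π * δ := ⟨_, rfl⟩
  have hun : ‖u‖ ≤ 5 * π / 8 := by rw [hu]; exact norm_u hδ
  have hψ' : ‖-ψ‖ ≤ 1 / 4 := by rwa [norm_neg]
  have h1 : ∀ t ∈ Icc (0:ℝ) 1, u * t + ψ ∈ ball (0 : ℂ) π := fun t ht => mem_path hun hψ ht
  have h2 : ∀ t ∈ Icc (0:ℝ) 1, u * t + -ψ ∈ ball (0 : ℂ) π := fun t ht => mem_path hun hψ' ht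
  have hd : ∀ t ∈ uIcc (0:ℝ) 1, HasDerivAt (fun s : ℝ => Λ (u * s + ψ) + Λ (u * s + -ψ))
      (u * ell (u * t + ψ) + u * ell (u * t + -ψ)) t := by
    intro t ht
    rw [uIcc_of_le zero_le_one] at ht
    exact (hasDerivAt_path hΛ u ψ (h1 t ht)).add (hasDerivAt_path hΛ u (-ψ) (h2 t ht))
  have hi : IntervalIntegrable (fun t : ℝ => u * ell (u * t + ψ) + u * ell (u * t + -ψ))
      volume 0 1 := by
    apply ContinuousOn.intervalIntegrable
    rw [uIcc_of_le zero_le_one]
    exact (cont_path u ψ h1).add (cont_path u (-ψ) h2)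
  have h := intervalIntegral.integral_eq_sub_of_hasDerivAt hd hi
  have hodd : Λ ψ + Λ (-ψ) = 0 := by
    apply odd_prim hΛ0 hΛ
    rw [mem_ball_zero_iff]
    have := Real.pi_gt_three
    linarith
  simp only [Complex.ofReal_one, mul_one, Complex.ofReal_zero, mul_zero, zero_add, hodd,
    sub_zero] at h
  rw [← hu, sub_eq_add_neg, ← h]
  unfold rrF
  rw [← mul_assoc, ← hu, ← intervalIntegral.integral_const_mul]
  apply intervalIntegral.integral_congr
  intro t ht
  rw [uIcc_of_le zero_le_one] at ht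
  simp only
  have h3 := ell_add (θ := u * t) (ψ := ψ) (ball_re (h1 t ht))
    (by rw [sub_eq_add_neg]; exact ball_re (h2 t ht))
  rw [sub_eq_add_neg] at h3
  rw [← h3, mul_add]

/-! ### The function `ssF` -/

theorem sin_re (w : ℂ) : (Complex.sin w).re = Real.sin w.re * Real.cosh w.im := by
  have h : Complex.sin w = ((Real.sin w.re * Real.cosh w.im : ℝ) : ℂ) +
      ((Real.cos w.re * Real.sinh w.im : ℝ) : ℂ) * Complex.I := by
    rw [Complex.sin_eq]
    push_cast
    ring
  rw [h, Complex.add_re, Complex.ofReal_re, Complex.re_ofReal_mul, Complex.I_re, mul_zero,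
    add_zero]

theorem delta_re {δ : ℂ} (hδ : ‖δ - 1 / 4‖ ≤ 1 / 16) :
    3 / 16 ≤ δ.re ∧ δ.re ≤ 5 / 16 ∧ ‖δ‖ ≤ 5 / 16 := by
  have h1 := (Complex.abs_re_le_norm (δ - 1 / 4)).trans hδ
  have e1 : (δ - 1 / 4).re = δ.re - 1 / 4 := by
    rw [Complex.sub_re]; norm_num
  rw [e1, abs_le] at h1
  refine ⟨by linarith [h1.1], by linarith [h1.2], ?_⟩
  have e : δ = (δ - 1 / 4) + 1 / 4 := by ring
  have h2 := norm_add_le (δ - 1 / 4) (1 / 4)
  rw [← e] at h2
  have h3 : ‖(1 / 4 : ℂ)‖ = 1 / 4 := by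
    rw [norm_div, norm_one, Complex.norm_ofNat]
  rw [h3] at h2
  linarith

theorem sin_lower {δ : ℂ} (hδ : ‖δ - 1 / 4‖ ≤ 1 / 16) {t : ℝ} (h0 : 0 ≤ t) (h1 : t ≤ 1) :
    t * (3 / 4) ≤ (2 * Complex.sin (π * δ * t)).re := by
  obtain ⟨d1, d2, _⟩ := delta_re hδ
  have e : (2 * Complex.sin (π * δ * t)).re =
      2 * (Real.sin (π * δ.re * t) * Real.cosh (π * δ.im * t)) := by
    rw [two_mul_re, sin_re, Complex.re_mul_ofReal, Complex.im_mul_ofReal, Complex.re_ofReal_mul,
      Complex.im_ofReal_mul]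
  rw [e]
  have hpi := Real.pi_pos
  have hx : π * δ.re * t ≤ π / 2 := by nlinarith [mul_nonneg hpi.le h0]
  have h2 := Real.mul_le_sin (x := π * δ.re * t) (by positivity) hx
  have h3 := Real.one_le_cosh (π * δ.im * t)
  have h4 : 2 / π * (π * δ.re * t) = 2 * δ.re * t := by field_simp
  rw [h4] at h2
  have h5 : 0 ≤ Real.sin (π * δ.re * t) := le_trans (by positivity) h2
  nlinarith

theorem norm_sin_le (w : ℂ) : ‖Complex.sin w‖ ≤ Real.exp ‖w‖ := by
  have h1 : Complex.sin w = (Complex.exp (-w * Complex.I) - Complex.exp (w * Complex.I)) *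
    Complex.I / 2 := rfl
  rw [h1, norm_div, norm_mul, Complex.norm_I, mul_one, Complex.norm_ofNat]
  have h2 := norm_sub_le (Complex.exp (-w * Complex.I)) (Complex.exp (w * Complex.I))
  have h3 : ‖Complex.exp (-w * Complex.I)‖ ≤ Real.exp ‖w‖ := by
    refine (Complex.norm_exp_le_exp_norm _).trans (Real.exp_le_exp.2 ?_)
    rw [norm_mul, Complex.norm_I, mul_one, norm_neg]
  have h4 : ‖Complex.exp (w * Complex.I)‖ ≤ Real.exp ‖w‖ := by
    refine (Complex.norm_exp_le_exp_norm _).trans (Real.exp_le_exp.2 ?_)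
    rw [norm_mul, Complex.norm_I, mul_one]
  linarith

theorem log_bound {δ : ℂ} (hδ : ‖δ - 1 / 4‖ ≤ 1 / 16) {t : ℝ} (ht : 0 < t) (ht1 : t ≤ 1) :
    ‖Complex.log (2 * Complex.sin (π * δ * t))‖ ≤ 10 + |Real.log t| := by
  obtain ⟨d1, d2, d3⟩ := delta_re hδ
  have g2 : t * (3 / 4) ≤ ‖2 * Complex.sin (π * δ * t)‖ :=
    (sin_lower hδ ht.le ht1).trans (Complex.re_le_norm _)
  have g3 : ‖2 * Complex.sin (π * δ * t)‖ ≤ 2 * Real.exp 1 := by
    rw [norm_mul, Complex.norm_ofNat]
    have h1 := norm_sin_le (π * δ * t)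
    have h2 : ‖(π : ℂ) * δ * t‖ ≤ 1 := by
      rw [norm_mul, norm_mul, Complex.norm_real, Complex.norm_real, Real.norm_eq_abs,
        Real.norm_eq_abs, abs_of_pos Real.pi_pos, abs_of_pos ht]
      have h3 : π * ‖δ‖ ≤ 1 := by nlinarith [Real.pi_lt_d2, Real.pi_pos, norm_nonneg δ]
      have h4 : 0 ≤ π * ‖δ‖ := by positivity
      nlinarith
    have h3 := Real.exp_le_exp.2 h2
    linarith
  obtain ⟨q, hq⟩ : ∃ q, q = 2 * Complex.sin (π * δ * t) := ⟨_, rfl⟩
  rw [← hq] at g2 g3 ⊢
  have hq0 : 0 < ‖q‖ := lt_of_lt_of_le (by positivity) g2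
  have h4 : Complex.log q = (Real.log ‖q‖ : ℂ) + Complex.arg q * Complex.I := rfl
  rw [h4]
  have h5 := norm_add_le (Real.log ‖q‖ : ℂ) (Complex.arg q * Complex.I)
  rw [norm_mul, Complex.norm_I, mul_one, Complex.norm_real, Complex.norm_real, Real.norm_eq_abs,
    Real.norm_eq_abs] at h5
  have h6 := Complex.abs_arg_le_pi q
  have h8 := Real.pi_lt_d2
  have h9 : |Real.log ‖q‖| ≤ 3 + |Real.log t| := by
    rw [abs_le]
    constructor
    · have k1 := Real.log_le_log (by positivity) g2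
      rw [Real.log_mul ht.ne' (by norm_num)] at k1
      have k2 := Real.one_sub_inv_le_log_of_pos (by norm_num : (0:ℝ) < 3 / 4)
      norm_num at k2
      have k3 := neg_abs_le (Real.log t)
      linarith
    · have k1 := Real.log_le_log hq0 g3
      rw [Real.log_mul (by norm_num) (Real.exp_pos 1).ne', Real.log_exp] at k1
      have k2 := Real.log_le_sub_one_of_pos (by norm_num : (0:ℝ) < 2)
      have k3 := abs_nonneg (Real.log t)
      linarith
  linarith

theorem log_cont {δ : ℂ} (hδ : ‖δ - 1 / 4‖ ≤ 1 / 16) :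
    ContinuousOn (fun t : ℝ => Complex.log (2 * Complex.sin (π * δ * t))) (Ioc 0 1) := by
  apply ContinuousOn.clog (by fun_prop)
  intro t ht
  left
  have := sin_lower hδ ht.1.le ht.2
  have := ht.1
  linarith

theorem log_int {δ : ℂ} (hδ : ‖δ - 1 / 4‖ ≤ 1 / 16) :
    IntervalIntegrable (fun t : ℝ => Complex.log (2 * Complex.sin (π * δ * t))) volume 0 1 := by
  have hg : IntervalIntegrable (fun t : ℝ => 10 + |Real.log t|) volume 0 1 :=
    intervalIntegrable_const.add intervalIntegral.intervalIntegrable_log'.abs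
  refine hg.mono_fun' ?_ ?_
  · rw [Set.uIoc_of_le zero_le_one]
    exact (log_cont hδ).aestronglyMeasurable measurableSet_Ioc
  · rw [Set.uIoc_of_le zero_le_one]
    refine (ae_restrict_iff' measurableSet_Ioc).2 (ae_of_all _ fun t ht => ?_)
    exact log_bound hδ ht.1 ht.2

theorem mem_pi_sub {δ : ℂ} (hδ : ‖δ - 1 / 4‖ ≤ 1 / 16) {t : ℝ} (ht : 0 < t) (ht1 : t ≤ 1) :
    -(2 * π * δ) * t + π ∈ ball (0 : ℂ) π ∧ 0 < (-(2 * π * δ) * t + π).re := by
  obtain ⟨d1, d2, d3⟩ := delta_re hδ
  have hpi := Real.pi_pos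
  have hre : (-(2 * π * δ) * t + π).re = π - 2 * π * δ.re * t := by
    have e : -(2 * π * δ) * t + π = ((-(2 * π * t) : ℝ) : ℂ) * δ + ((π : ℝ) : ℂ) := by
      push_cast; ring
    rw [e, Complex.add_re, Complex.re_ofReal_mul, Complex.ofReal_re]
    ring
  have him : (-(2 * π * δ) * t + π).im = -(2 * π * δ.im * t) := by
    have e : -(2 * π * δ) * t + π = ((-(2 * π * t) : ℝ) : ℂ) * δ + ((π : ℝ) : ℂ) := by
      push_cast; ring
    rw [e, Complex.add_im, Complex.im_ofReal_mul, Complex.ofReal_im]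
    ring
  have hn : δ.re ^ 2 + δ.im ^ 2 ≤ (5 / 16) ^ 2 := by
    have h1 : ‖δ‖ ^ 2 = δ.re ^ 2 + δ.im ^ 2 := by
      rw [← Complex.normSq_eq_norm_sq, Complex.normSq_apply]; ring
    rw [← h1]
    exact pow_le_pow_left₀ (norm_nonneg _) d3 2
  constructor
  · rw [mem_ball_zero_iff]
    refine lt_of_pow_lt_pow_left₀ 2 hpi.le ?_
    rw [← Complex.normSq_eq_norm_sq, Complex.normSq_apply, hre, him]
    have e : (π - 2 * π * δ.re * t) * (π - 2 * π * δ.re * t) +
        -(2 * π * δ.im * t) * -(2 * π * δ.im * t) =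
        π ^ 2 * (1 - 4 * t * (δ.re - t * (δ.re ^ 2 + δ.im ^ 2))) := by ring
    rw [e]
    have h2 : 0 < δ.re - t * (δ.re ^ 2 + δ.im ^ 2) := by nlinarith [sq_nonneg δ.re, sq_nonneg δ.im]
    have h3 : 0 < 4 * t * (δ.re - t * (δ.re ^ 2 + δ.im ^ 2)) := by positivity
    have h4 : 0 < π ^ 2 := by positivity
    nlinarith
  · rw [hre]
    have : δ.re * t ≤ 5 / 16 := by nlinarith
    nlinarith

theorem sin_eq_cos (δ : ℂ) (t : ℝ) :
    Complex.cos ((-(2 * π * δ) * t + π) / 2) = Complex.sin (π * δ * t) := by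
  have e : (-(2 * π * δ) * t + π) / 2 = π / 2 - π * δ * t := by ring
  rw [e, Complex.cos_pi_div_two_sub]

theorem ss_eq {δ : ℂ} (hδ : ‖δ - 1 / 4‖ ≤ 1 / 16) :
    -(2 * π * (ssF δ).re) = Dv (Complex.exp (Complex.I * (2 * π * δ))) +
      (2 * π * δ).im * (Complex.sin (π * δ)).arg := by
  obtain ⟨Λ, hΛ0, hΛ⟩ := exists_prim
  obtain ⟨u, hu⟩ : ∃ u : ℂ, u = 2 * π * δ := ⟨_, rfl⟩
  have hpi := Real.pi_pos
  set F : ℝ → ℝ := fun t => -(Dv (Complex.exp (Complex.I * (u * t))) +
    t * u.im * (Complex.sin (π * δ * t)).arg) with hF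
  -- identity with `Λ`
  have hFL : ∀ t : ℝ, 0 < t → t ≤ 1 → F t = -(Λ (-u * t + π)).re := by
    intro t h0 h1
    obtain ⟨m1, m2⟩ := mem_pi_sub hδ h0 h1
    have h2 := dvE hΛ0 hΛ m1 m2
    rw [sin_eq_cos] at h2
    rw [← hu] at h2
    have e1 : -Complex.exp (-(Complex.I * (-u * t + π))) = Complex.exp (Complex.I * (u * t)) := by
      have e2 : -(Complex.I * (-u * t + π)) = Complex.I * (u * t) - π * Complex.I := by ring
      rw [e2, Complex.exp_sub, Complex.exp_pi_mul_I, div_neg, div_one, neg_neg]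
    have e3 : (-u * t + π).im = -(t * u.im) := by
      rw [Complex.add_im, Complex.im_mul_ofReal, Complex.neg_im, Complex.ofReal_im]
      ring
    rw [e1, e3] at h2
    have h3 : F t = -(Dv (Complex.exp (Complex.I * (u * t))) +
      t * u.im * (Complex.sin (π * δ * t)).arg) := rfl
    rw [h3, h2]
    ring
  have hcont : ContinuousOn F (Icc 0 1) := by
    intro t ht
    rcases eq_or_lt_of_le ht.1 with h0 | h0
    · -- at zero
      rw [← h0]
      apply ContinuousAt.continuousWithinAt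
      rw [hF]
      apply ContinuousAt.neg
      apply ContinuousAt.add
      · apply Dv_cont.continuousAt.comp
        fun_prop
      · rw [ContinuousAt]
        simp only [zero_mul]
        have hb : ∀ s : ℝ, |s * u.im * (Complex.sin (π * δ * s)).arg| ≤ |s * u.im| * π := by
          intro s
          rw [abs_mul]
          exact mul_le_mul_of_nonneg_left (Complex.abs_arg_le_pi _) (abs_nonneg _)
        have ht0 : Tendsto (fun s : ℝ => |s * u.im| * π) (𝓝 0) (𝓝 0) := by
          have : ContinuousAt (fun s : ℝ => |s * u.im| * π) 0 := by fun_prop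
          have h2 := this.tendsto
          simpa using h2
        exact squeeze_zero_norm hb ht0
    · rw [hF]
      apply ContinuousWithinAt.neg
      apply ContinuousWithinAt.add
      · apply ContinuousAt.continuousWithinAt
        apply Dv_cont.continuousAt.comp
        fun_prop
      · apply ContinuousAt.continuousWithinAt
        apply ContinuousAt.mul (by fun_prop)
        have h3 : 0 < (Complex.sin (π * δ * t)).re := by
          have := sin_lower hδ ht.1 ht.2
          rw [two_mul_re] at this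
          linarith
        have h4 : ContinuousAt Complex.arg (Complex.sin (π * δ * t)) :=
          Complex.continuousAt_arg (Or.inl h3)
        exact ContinuousAt.comp (f := fun s : ℝ => Complex.sin (π * δ * s)) h4 (by fun_prop)
  have hder : ∀ t ∈ Ioo (0:ℝ) 1, HasDerivAt F
      ((u * Complex.log (2 * Complex.sin (π * δ * t))).re) t := by
    intro t ht
    have m1 := (mem_pi_sub hδ ht.1 ht.2.le).1
    rw [← hu] at m1
    have d1 := hasDerivAt_path hΛ (-u) π m1
    have d2 : HasDerivAt (fun s : ℝ => -(Λ (-u * s + π)).re)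
        (-(-u * ell (-u * t + π)).re) t := by
      have h3 := Complex.reCLM.hasFDerivAt.comp_hasDerivAt t d1
      have h4 : HasDerivAt (fun s : ℝ => (Λ (-u * s + π)).re) ((-u * ell (-u * t + π)).re) t := by
        simpa only [Function.comp_def, Complex.reCLM_apply] using h3
      exact h4.neg
    have e1 : ell (-u * t + π) = Complex.log (2 * Complex.sin (π * δ * t)) := by
      unfold ell
      rw [hu, sin_eq_cos]
    rw [e1, neg_mul, Complex.neg_re, neg_neg] at d2
    refine d2.congr_of_eventuallyEq ?_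
    filter_upwards [Ioo_mem_nhds ht.1 ht.2] with s hs
    exact hFL s hs.1 hs.2.le
  have hint : IntervalIntegrable
      (fun t : ℝ => (u * Complex.log (2 * Complex.sin (π * δ * t))).re) volume 0 1 := by
    have h1 := (log_int hδ).const_mul u
    exact ⟨Complex.reCLM.integrable_comp h1.1, Complex.reCLM.integrable_comp h1.2⟩
  have hftc := intervalIntegral.integral_eq_sub_of_hasDerivAt_of_le zero_le_one hcont hder hint
  have hre : ∫ t in (0:ℝ)..1, (u * Complex.log (2 * Complex.sin (π * δ * t))).re =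
      2 * π * (ssF δ).re := by
    have h1 := (log_int hδ).const_mul u
    have h2 := Complex.reCLM.intervalIntegral_comp_comm h1
    simp only [Complex.reCLM_apply] at h2
    rw [h2, intervalIntegral.integral_const_mul]
    unfold ssF
    have e : u * ∫ t in (0:ℝ)..1, Complex.log (2 * Complex.sin (π * δ * t)) =
        ((2 * π : ℝ) : ℂ) * (δ * ∫ t in (0:ℝ)..1, Complex.log (2 * Complex.sin (π * δ * t))) := by
      rw [hu]
      push_cast
      ring
    rw [e, Complex.re_ofReal_mul]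
  rw [← hre, hftc, hF, ← hu]
  have hD1 : Dv (Complex.exp (Complex.I * (u * (0:ℝ)))) = 0 := by
    rw [Complex.ofReal_zero, mul_zero, mul_zero, Complex.exp_zero, Dv_one]
  simp only [hD1, zero_mul, add_zero, neg_zero, sub_zero, Complex.ofReal_one, mul_one, one_mul]
  ring

theorem poth : S_POTH := by
  intro δ ψ hδ hψ
  obtain ⟨Λ, hΛ0, hΛ⟩ := exists_prim
  obtain ⟨d1, d2, d3⟩ := delta_re hδ
  have hpi := Real.pi_gt_three
  have hpi' := Real.pi_pos
  obtain ⟨u, hu⟩ : ∃ u : ℂ, u = 2 * π * δ := ⟨_, rfl⟩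
  have hun : ‖u‖ ≤ 5 * π / 8 := by rw [hu]; exact norm_u hδ
  have hure : 3 * π / 8 ≤ u.re := by
    have : u = ((2 * π : ℝ) : ℂ) * δ := by rw [hu]; push_cast; ring
    rw [this, Complex.re_ofReal_mul]
    nlinarith
  have hψre : |ψ.re| ≤ 1 / 4 := (Complex.abs_re_le_norm ψ).trans hψ
  rw [abs_le] at hψre
  have m1 : u + ψ ∈ ball (0 : ℂ) π := by
    have := mem_path hun hψ (t := 1) ⟨zero_le_one, le_rfl⟩
    simpa using this
  have m2 : u - ψ ∈ ball (0 : ℂ) π := by
    have := mem_path hun (w := -ψ) (by rwa [norm_neg]) (t := 1) ⟨zero_le_one, le_rfl⟩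
    rw [Complex.ofReal_one, mul_one, ← sub_eq_add_neg] at this
    exact this
  have r1 : 0 < (u + ψ).re := by
    rw [Complex.add_re]; linarith [hψre.1]
  have r2 : 0 < (u - ψ).re := by
    rw [Complex.sub_re]; linarith [hψre.2]
  have c1 : 0 < (Complex.cos ((u + ψ) / 2)).re := by
    have := two_cos_pos (ball_re m1)
    rw [two_mul_re] at this
    linarith
  have c2 : 0 < (Complex.cos ((u - ψ) / 2)).re := by
    have := two_cos_pos (ball_re m2)
    rw [two_mul_re] at this
    linarith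
  have hE1 := dvE hΛ0 hΛ m1 r1
  have hE2 := dvE hΛ0 hΛ m2 r2
  have hrr := rr_eq hΛ0 hΛ hδ hψ
  constructor
  · rw [← hu] at hrr ⊢
    have hrr' : 2 * π * (rrF δ ψ).re = (Λ (u + ψ)).re + (Λ (u - ψ)).re := by
      have h := congrArg Complex.re hrr
      have e : 2 * π * rrF δ ψ = ((2 * π : ℝ) : ℂ) * rrF δ ψ := by push_cast; ring
      rw [e, Complex.re_ofReal_mul, Complex.add_re] at h
      exact h
    have hLg : (Lg u ψ).im = (Complex.cos ((u - ψ) / 2)).arg - (Complex.cos ((u + ψ) / 2)).arg := by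
      unfold Lg
      exact log_div_of_pos c2 c1
    have hlog : (Complex.log (2 * Complex.cos ψ + 2 * Complex.cos u)).im =
        (Complex.cos ((u + ψ) / 2)).arg + (Complex.cos ((u - ψ) / 2)).arg := by
      rw [← ell_add (ball_re m1) (ball_re m2)]
      unfold ell
      rw [Complex.add_im, Complex.log_im, Complex.log_im, arg_two_mul, arg_two_mul]
    have e1 : Complex.I * (ψ - u) = -(Complex.I * (u - ψ)) := by ring
    rw [e1, hE1, hE2, hrr', hLg, hlog, Complex.add_im, Complex.sub_im]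
    ring
  · rw [ss_eq hδ, Complex.log_im, arg_two_mul]

end Pool.Agent.W583.HTP
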