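import Pool.Agent.W583.EtOne
import Pool.Agent.W613.Et.Level
import Pool.Agent.W333.Et.Modif
import Pool.Agent.W32.Et.Laur

/-!
The atlas in the case of one level (subtask ET-ONE), without hypotheses.
-/

set_option autoImplicit false

universe u

namespace Pool.Agent.W583.EtOne

/-- ET-ONE. -/
theorem one : Pool.Agent.W559.Et.OneStm.{u} :=
  one' Pool.Agent.W32.Et.laur (Pool.Agent.W613.Et.level Pool.Agent.W333.Et.modif)
    Pool.Agent.W613.Et.ofPb

end Pool.Agent.W583.EtOne
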