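import Pool.Agent.W559.Et.Stm2

/-!
The atlas in the case of one level (subtask ET-ONE).
-/

set_option autoImplicit false
set_option linter.unusedSectionVars false

universe u v w

namespace Pool.Agent.W583.EtOne

open Pool.Agent.W559.Mg Pool.Agent.W559.Et

section

variable {k K : Type u} [Field k] [Field K] [Algebra k K]

/-- The algebra of the first level, with the torus of the second direction. -/
noncomputable def ST (R : Subalgebra k (ML K G3)) : Subalgebra k (ML K G3) :=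
  Algebra.adjoin k ((R : Set (ML K G3)) ∪ {mo (dg 0 1 0) 1, mo (dg 0 (-1) 0) 1})

variable {R : Subalgebra k (ML K G3)}

lemma le_ST : R ≤ ST R := fun _ hf => Algebra.subset_adjoin (Or.inl hf)

lemma T_mem : mo (dg 0 1 0) 1 ∈ ST R := Algebra.subset_adjoin (Or.inr (Or.inl rfl))

lemma T'_mem : mo (dg 0 (-1) 0) 1 ∈ ST R := Algebra.subset_adjoin (Or.inr (Or.inr rfl))

lemma T_pow {S : Subalgebra k (ML K G3)} (h1 : mo (dg 0 1 0) 1 ∈ S)
    (h2 : mo (dg 0 (-1) 0) 1 ∈ S) (n : ℤ) : mo (dg 0 n 0) 1 ∈ S := by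
  have h3 := zpow_mem' (u := (1 : K)) h1 (by rw [dg_neg, inv_one]; exact h2) n
  rw [one_zpow] at h3
  have h4 : n • dg 0 1 0 = dg 0 n 0 := by
    unfold dg; ext <;> simp
  rwa [h4] at h3

lemma ST_eq (X : Set (ML K G3)) (hX : Algebra.adjoin k X = R) :
    Algebra.adjoin k (X ∪ {mo (dg 0 1 0) 1, mo (dg 0 (-1) 0) 1}) = ST R := by
  apply le_antisymm
  · rw [Algebra.adjoin_le_iff]
    rintro f (hf | hf)
    · exact le_ST (by rw [← hX]; exact Algebra.subset_adjoin hf)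
    · exact Algebra.subset_adjoin (Or.inr hf)
  · unfold ST
    rw [Algebra.adjoin_le_iff]
    rintro f (hf | hf)
    · have h1 : f ∈ Algebra.adjoin k X := by rw [hX]; exact hf
      exact Algebra.adjoin_mono Set.subset_union_left h1
    · exact Algebra.subset_adjoin (Or.inr hf)

lemma ST_le {S : Subalgebra k (ML K G3)} (h : R ≤ S) (h1 : mo (dg 0 1 0) 1 ∈ S)
    (h2 : mo (dg 0 (-1) 0) 1 ∈ S) : ST R ≤ S := by
  unfold ST
  rw [Algebra.adjoin_le_iff]
  rintro f (hf | hf | hf)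
  · exact h hf
  · rw [hf]; exact h1
  · rw [Set.mem_singleton_iff.1 hf]; exact h2

lemma X_hom {X : Set (ML K G3)} (hX : ∀ y ∈ X, ∃ d a, y = mo d a) :
    ∀ y ∈ X ∪ {mo (dg 0 1 0) 1, mo (dg 0 (-1) 0) 1}, ∃ d a, y = mo d a := by
  rintro y (hy | hy | hy)
  · exact hX y hy
  · exact ⟨_, _, hy⟩
  · exact ⟨_, _, Set.mem_singleton_iff.1 hy⟩

lemma fg_ST (h : R.FG) : (ST R).FG := by
  obtain ⟨X, hX, hXR⟩ := Subalgebra.fg_def.1 h
  rw [← ST_eq X hXR]
  rw [Subalgebra.fg_def]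
  exact ⟨_, hX.union ((Set.finite_singleton _).insert _), rfl⟩

lemma ST_gm (γ : K →ₐ[k] K) (h : ∀ f ∈ R, gm G3 γ f ∈ R) : ∀ f ∈ ST R, gm G3 γ f ∈ ST R := by
  have hmo : ∀ d : G3, gm G3 γ (mo d 1) = mo d 1 := fun d => by rw [gm_mo, map_one]
  have h1 : ST R ≤ (ST R).comap (gm G3 γ) := by
    refine ST_le ?_ ?_ ?_
    · intro f hf
      exact le_ST (h f hf)
    · change gm G3 γ _ ∈ ST R
      rw [hmo]; exact T_mem
    · change gm G3 γ _ ∈ ST R
      rw [hmo]; exact T'_mem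
  exact fun f hf => h1 hf

lemma ST_Dn (ν : G3) (σ : K →ₐ[k] K) (hs : mo (-ν) 1 ∈ R) (h : ∀ f ∈ R, Dn ν σ f ∈ R) :
    ∀ f ∈ ST R, Dn ν σ f ∈ ST R := by
  have hmo : ∀ d : G3, Dn ν σ (mo d 1) = 0 := by
    intro d
    have h1 : dl σ (1 : K) = 0 := by unfold dl; rw [map_one, sub_self]
    rw [Dn_mo, h1, mo_zero]
  refine Dn_stable ((R : Set (ML K G3)) ∪ {mo (dg 0 1 0) 1, mo (dg 0 (-1) 0) 1}) rfl ν σ
    (le_ST hs) ?_
  rintro f (hf | hf | hf)
  · exact le_ST (h f hf)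
  · rw [hf, hmo]; exact Subalgebra.zero_mem _
  · rw [Set.mem_singleton_iff.1 hf, hmo]; exact Subalgebra.zero_mem _

/-- The Laurent variable is independent over the elements of second degree zero. -/
lemma indep (hc : ∀ f ∈ R, ∀ d, f.coeff d ≠ 0 → co2 d = 0) (c : ℕ →₀ ML K G3)
    (hcR : ∀ i, c i ∈ R) (h0 : (c.sum fun i a => a * mo (dg 0 1 0) 1 ^ i) = 0) : c = 0 := by
  classical
  ext i : 1
  apply ml_ext
  intro d
  change (c i).coeff d = 0
  by_contra hne
  have hd : co2 d = 0 := hc _ (hcR i) d hne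
  have h1 := congrArg (fun f => f.coeff (d + i • dg 0 1 0)) h0
  have h2 : (c.sum fun i a => a * mo (dg 0 1 0) 1 ^ i).coeff (d + i • dg 0 1 0) =
      (c i).coeff d := by
    unfold Finsupp.sum
    rw [coeff_sum', Finset.sum_eq_single i]
    · change (c i * mo (dg 0 1 0) 1 ^ i).coeff (d + i • dg 0 1 0) = _
      rw [mul_comm, mo_pow, coeff_mo_mul, one_pow, one_mul, add_sub_cancel_right]
    · intro j _ hj
      change (c j * mo (dg 0 1 0) 1 ^ j).coeff (d + i • dg 0 1 0) = 0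
      rw [mul_comm, mo_pow, coeff_mo_mul, one_pow, one_mul]
      by_contra hne'
      have h3 := hc _ (hcR j) _ hne'
      rw [map_sub, map_add, hd, map_nsmul, map_nsmul, co2_dg, zero_add, nsmul_eq_mul,
        nsmul_eq_mul, mul_one, mul_one] at h3
      apply hj
      omega
    · intro hi
      change (c i * mo (dg 0 1 0) 1 ^ i).coeff (d + i • dg 0 1 0) = 0
      rw [Finsupp.notMem_support_iff.1 hi, zero_mul]
      rfl
  have h3 : (c.sum fun i a => a * mo (dg 0 1 0) 1 ^ i).coeff (d + i • dg 0 1 0) = 0 := h1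
  rw [h2] at h3
  exact hne h3

end

/-- ET-ONE: the atlas in the case of one level. -/
theorem one' (hlaur : LaurStm.{u}) (hlev : LevelStm.{u}) (hofPb : OfPbStm.{u}) :
    OneStm.{u} := by
  intro k K _ _ _ γ p hp hpk hγ 𝒱 Kf 𝒜 W E T _ C H hPB R hR hsm
  have hσp : ∀ x : K, (⇑(γ ^ 1))^[p] x = x := fun x => by rw [pow_one]; exact hγ x
  have hDS : ∀ t, ∀ f ∈ ST (R t), Dn (dg 1 0 0) (γ ^ 1) f ∈ ST (R t) := fun t =>
    ST_Dn (dg 1 0 0) (γ ^ 1) (hR.s t) (hR.D t)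
  choose X hX1 hX2 hX3 using hR.X
  have hle : ∀ t, ST (R t) ≤ C t := fun t => ST_le (hR.le t) (hR.T t).1 (hR.T t).2
  have hgr : ∀ t, Gr (ST (R t)) := fun t => by
    rw [← ST_eq (X t) (hX2 t)]
    exact gr_adjoin _ (X_hom (hX1 t))
  have hneg : ∀ t m a, co1 m ≤ 0 → mo m a ∈ C t ⊓ fx (gm G3 γ) → mo m a ∈ ST (R t) := by
    intro t m a hm hma
    have h1 : mo (m + dg 0 (-co2 m) 0) a ∈ C t ⊓ fx (gm G3 γ) := by
      have h2 : mo (dg 0 (-co2 m) 0) 1 ∈ C t ⊓ fx (gm G3 γ) := by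
        refine ⟨T_pow (hR.T t).1 (hR.T t).2 _, ?_⟩
        change gm G3 γ (mo (dg 0 (-co2 m) 0) 1) = mo (dg 0 (-co2 m) 0) 1
        rw [gm_mo, map_one]
      have h3 := (C t ⊓ fx (gm G3 γ)).mul_mem hma h2
      rwa [mo_mul, mul_one] at h3
    have h2 := hR.neg t _ a (by rw [map_add, co1_dg, add_zero]; exact hm)
      (by rw [map_add, co2_dg, add_neg_cancel]) h1
    have h3 := (ST (R t)).mul_mem (le_ST h2) (T_pow T_mem T'_mem (co2 m))
    rw [mo_mul, mul_one, add_assoc, dg_add, neg_add_cancel, add_zero, dg_zero, add_zero] at h3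
    exact h3
  have hgl : ∀ t t', ∀ f ∈ ST (R t'), ∃ n : ℕ, mo 0 (H t' / H t) ^ n * f ∈ ST (R t) := by
    intro t t'
    have hx : mo 0 (H t' / H t) ∈ ST (R t) :=
      le_ST (hR.neg t 0 _ (by rw [map_zero]) (by rw [map_zero]) (hPB.rt t t'))
    have h1 : ST (R t') ≤ lc (ST (R t)) (mo 0 (H t' / H t)) hx := by
      refine ST_le ?_ (le_lc _ _ _ T_mem) (le_lc _ _ _ T'_mem)
      intro f hf
      obtain ⟨n, hn⟩ := hR.gl t t' f hf
      exact ⟨n, le_ST hn⟩
    exact fun f hf => h1 hf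
  have hgp : ∀ f : ML K G3, (gm G3 γ)^[p] f = f := fun f => by
    apply ml_ext
    intro d
    rw [gm_iter_coeff, hγ]
  obtain ⟨J, hJ, μ, x, φ, f, hm, L, N, u, hL, hu, hpa⟩ := hlev k K G3 𝒱 Kf 𝒜 W γ E T C H hPB co1
    (fun t => ST (R t)) hle hgr hneg hgl p hp hpk (γ ^ 1) (dg 1 0 0)
    (fun x => by rw [pow_one]) (fun x hx => by rw [pow_one]; exact hx)
    (fun t => ST_gm γ (hR.g t)) hDS (fun t => le_ST (hR.s t))
    (fun t f _ => by
      apply ml_ext
      intro d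
      rw [gm_iter_coeff, hσp])
    p hp.pos (fun t f _ => hgp f) (fun t => X t ∪ {mo (dg 0 1 0) 1, mo (dg 0 (-1) 0) 1})
    (fun t => X_hom (hX1 t)) (fun t => ST_eq (X t) (hX2 t)) (fun t => fg_ST (hR.fg t))
    (by
      rintro t Q hQ hQD d a hda hdX hd
      rcases hdX with hdX | hdX | hdX
      · have hda' : mo d a ∈ R t := by rw [← hX2 t]; exact Algebra.subset_adjoin hdX
        have hP : (Q.comap (Subalgebra.inclusion (le_ST (R := R t))).toRingHom).IsPrime :=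
          Ideal.IsPrime.comap _
        have h1 := hX3 t (Q.comap (Subalgebra.inclusion (le_ST (R := R t))).toRingHom) hP
          (fun f hf hfR => hQD ⟨f, le_ST hfR⟩) d a hda' hdX hd
        exact h1
      · exfalso
        have ha : a ≠ 0 := by
          rintro rfl
          rw [mo_zero] at hdX
          exact mo_ne_zero one_ne_zero hdX.symm
        have h3 := (mo_dg_inj hdX ha).1
        rw [h3, co1_dg] at hd
        exact absurd hd (lt_irrefl 0)
      · exfalso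
        have hdX' : mo d a = mo (dg 0 (-1) 0) 1 := Set.mem_singleton_iff.1 hdX
        have ha : a ≠ 0 := by
          rintro rfl
          rw [mo_zero] at hdX'
          exact mo_ne_zero one_ne_zero hdX'.symm
        have h3 := (mo_dg_inj hdX' ha).1
        rw [h3, co1_dg] at hd
        exact absurd hd (lt_irrefl 0))
    (fun t => by
      obtain ⟨d, a, h1, h2, h3⟩ := hR.pos t
      exact ⟨d, a, h1, h2, le_ST h3⟩)
  refine ⟨Σ t, J t, inferInstance, _, _, _, hofPb k K G3 𝒱 Kf 𝒜 W _ _ _ _ _ hpa ?_⟩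
  rintro ⟨t, j⟩
  have hm' : IsMark (ST (R t)) co1 γ γ (dg 1 0 0) p (μ t j) (x t j) (φ t j) (f t j) := by
    have h1 := hm t j
    rwa [pow_one] at h1
  have hDn : ∀ f ∈ ST (R t), Dn (dg 1 0 0) γ f ∈ ST (R t) := by
    have h1 := hDS t
    rwa [pow_one] at h1
  have hsmS : Algebra.Smooth k (ST (R t)) := by
    refine hlaur k (ML K G3) (R t) (mo (dg 0 1 0) 1) (mo (dg 0 (-1) 0) 1) ?_
      (indep (hR.c t)) (hsm t)
    rw [mo_mul, dg_add, mul_one]
    rfl
  exact chart_smooth hp hpk hm' hDn (le_ST (hR.s t)) (fun f _ => hgp f) hsmS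

end Pool.Agent.W583.EtOne
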