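import Pool.Agent.W711.HT.Geo

/-!
HT-CHV: the volume of a chain.
-/

set_option autoImplicit false

namespace Pool.Agent.W583.HT

open Filter Finset Topology Metric
open Pool.Agent.W711.HT
open Pool.Agent.W709.VC (Dv S_TET S_DSYM S_FIVE)
open scoped Real ComplexConjugate

theorem lob_zero' : GapVol.lob 0 = 0 := by
  unfold GapVol.lob
  simp

theorem Dv_zero' : Dv 0 = 0 := by
  unfold Dv
  simp [lob_zero']

theorem Dv_one' : Dv 1 = 0 := by
  unfold Dv
  simp [lob_zero']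

theorem HH_one' (Y : ℂ) : HH Y 1 = 0 := by
  unfold HH
  rw [sub_self, zero_div, Dv_zero', zero_add, mul_one]
  by_cases h : 1 - Y = 0
  · rw [h, zero_div, Dv_zero']
  · rw [div_self h, Dv_one']

theorem sin_half_ne {z : ℂ} (hz : 0 < z.im) : Complex.sin (z / 2) ≠ 0 := by
  intro h
  rw [Complex.sin_eq_zero_iff] at h
  obtain ⟨k, hk⟩ := h
  have h1 : (z / 2).im = ((k : ℂ) * (π : ℂ)).im := by rw [hk]
  have h2 : ((k : ℂ) * (π : ℂ)).im = 0 := by
    have : ((k : ℂ) * (π : ℂ)) = (((k : ℝ) * π : ℝ) : ℂ) := by push_cast; rfl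
    rw [this, Complex.ofReal_im]
  have h3 : (z / 2).im = z.im / 2 := by
    have : z / 2 = z / ((2 : ℝ) : ℂ) := by push_cast; rfl
    rw [this, Complex.div_ofReal_im]
  rw [h2, h3] at h1
  linarith

/-- the parameter `ρ` of the twist region after `l` -/
noncomputable def rh (l : List (ℕ × ℂ)) (z : ℂ) : ℂ := -(sgn l : ℂ) * z / 2

theorem sgn_cases (l : List (ℕ × ℂ)) : (bl l = true ∧ sgn l = 1) ∨ (bl l = false ∧ sgn l = -1) := by
  unfold sgn
  cases h : bl l
  · right; simp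
  · left; simp

theorem rh_true {l : List (ℕ × ℂ)} (h : sgn l = 1) (z : ℂ) : rh l z = -z / 2 := by
  unfold rh
  rw [h]
  push_cast
  ring

theorem rh_false {l : List (ℕ × ℂ)} (h : sgn l = -1) (z : ℂ) : rh l z = z / 2 := by
  unfold rh
  rw [h]
  push_cast
  ring

theorem sin_rh_ne (l : List (ℕ × ℂ)) {z : ℂ} (hz : 0 < z.im) : Complex.sin (rh l z) ≠ 0 := by
  rcases sgn_cases l with ⟨_, h⟩ | ⟨_, h⟩
  · rw [rh_true h, neg_div, Complex.sin_neg]
    exact neg_ne_zero.2 (sin_half_ne hz)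
  · rw [rh_false h]
    exact sin_half_ne hz

theorem Uf_true {l : List (ℕ × ℂ)} (hb : bl l = true) (h : sgn l = 1) (z t : ℂ) (k : ℕ) :
    Uf (bl l) z t k = Complex.sin (k * rh l z + t) / Complex.sin (rh l z) := by
  unfold Uf
  rw [hb, if_pos rfl, rh_true h]

theorem Uf_false {l : List (ℕ × ℂ)} (hb : bl l = false) (h : sgn l = -1) (z t : ℂ) (k : ℕ) :
    Uf (bl l) z t k = conj (Complex.sin (k * rh l z + t) / Complex.sin (rh l z)) := by
  unfold Uf
  rw [hb, if_neg (by simp), rh_false h]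

theorem Uf_ne {l : List (ℕ × ℂ)} {z t : ℂ} {k : ℕ} (h : Uf (bl l) z t k ≠ 0) :
    Complex.sin (k * rh l z + t) ≠ 0 := by
  intro h0
  apply h
  rcases sgn_cases l with ⟨hb, hs⟩ | ⟨hb, hs⟩
  · rw [Uf_true hb hs, h0, zero_div]
  · rw [Uf_false hb hs, h0, zero_div, map_zero]

theorem Dv_Uf (hD : S_DSYM) (l : List (ℕ × ℂ)) (z t : ℂ) (k : ℕ) :
    Dv (Uf (bl l) z t k ^ 2) =
      sgn l * Dv ((Complex.sin (k * rh l z + t) / Complex.sin (rh l z)) ^ 2) := by
  rcases sgn_cases l with ⟨hb, hs⟩ | ⟨hb, hs⟩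
  · rw [Uf_true hb hs, hs, one_mul]
  · rw [Uf_false hb hs, hs, ← map_pow, hD.1]
    ring

/-- `e^(2 i ρ)` -/
theorem exp_rh (l : List (ℕ × ℂ)) (z : ℂ) :
    Complex.exp (2 * Complex.I * rh l z) = Complex.exp (-(Complex.I * (sgn l : ℂ) * z)) := by
  unfold rh
  congr 1
  ring

/-- the sum over a twist region -/
theorem region (hF : S_FANG) (hD : S_DSYM) {l : List (ℕ × ℂ)} {a : ℕ} {z t t' : ℂ} (ha : 2 ≤ a)
    (hz : 0 < z.im) (he : a * rh l z + t + t' = π)
    (hne : ∀ k : ℕ, 1 ≤ k → k < a → Complex.sin (k * rh l z + t) ≠ 0) :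
    ∑ k ∈ Ico 1 a, 2 * Dv (Uf (bl l) z t k ^ 2) =
      2 * sgn l * HH (Complex.exp (-(Complex.I * (sgn l : ℂ) * z))) (Complex.exp (2 * Complex.I * t)) +
      2 * sgn l * HH (Complex.exp (-(Complex.I * (sgn l : ℂ) * z)))
        (Complex.exp (2 * Complex.I * t')) := by
  have h1 := hF a (rh l z) t t' ha he (sin_rh_ne l hz) hne
  rw [exp_rh] at h1
  have h2 : ∑ k ∈ Ico 1 a, 2 * Dv (Uf (bl l) z t k ^ 2) =
      2 * sgn l * ∑ k ∈ Ico 1 a, Dv ((Complex.sin (k * rh l z + t) / Complex.sin (rh l z)) ^ 2) := by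
    rw [Finset.mul_sum]
    apply Finset.sum_congr rfl
    intro k _
    rw [Dv_Uf hD]
    ring
  rw [h2, h1]
  ring

theorem cos_sq_half (z : ℂ) : Complex.cos (z / 2) ^ 2 = (1 + Complex.cos z) / 2 := by
  have h := Complex.cos_two_mul (z / 2)
  rw [show 2 * (z / 2) = z by ring] at h
  rw [h]
  ring

/-- the square of `U_a` at a hinge -/
theorem hinge (hH : S_HLOC) (hD : S_DSYM) {l : List (ℕ × ℂ)} {a : ℕ} {z z' u t : ℂ}
    (hz : 0 < z.im) (hP : HP z z' u) (he : a * rh l z + t + tt z u = π) :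
    Dv (Uf (bl l) z t a ^ 2) = sgn l * Dv (-((1 + Complex.cos z') / (1 + Complex.cos z))) := by
  have h1 : Complex.sin (a * rh l z + t) = Complex.sin (tt z u) := by
    have : (a : ℂ) * rh l z + t = π - tt z u := by rw [← he]; ring
    rw [this, Complex.sin_pi_sub]
  have h2 := (hH z z' u hP).2.2.1
  have hs := sin_half_ne hz
  rw [Dv_Uf hD, h1, h2]
  congr 2
  have h3 : Complex.sin (rh l z) ^ 2 = Complex.sin (z / 2) ^ 2 := by
    rcases sgn_cases l with ⟨_, h⟩ | ⟨_, h⟩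
    · rw [rh_true h, neg_div, Complex.sin_neg, neg_sq]
    · rw [rh_false h]
  have h4 : (1 + Complex.cos z') / (1 + Complex.cos z) =
      Complex.cos (z' / 2) ^ 2 / Complex.cos (z / 2) ^ 2 := by
    rw [cos_sq_half, cos_sq_half, div_div_div_cancel_right₀ (two_ne_zero)]
  rw [h4, div_pow, div_pow, h3]
  have h5 : (-Complex.I * Complex.sin (z / 2) * Complex.cos (z' / 2)) ^ 2 =
      -(Complex.sin (z / 2) ^ 2 * Complex.cos (z' / 2) ^ 2) := by
    have : (-Complex.I * Complex.sin (z / 2) * Complex.cos (z' / 2)) ^ 2 =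
      Complex.I ^ 2 * (Complex.sin (z / 2) ^ 2 * Complex.cos (z' / 2) ^ 2) := by ring
    rw [this, Complex.I_sq]
    ring
  rw [h5]
  have h6 : Complex.sin (z / 2) ^ 2 ≠ 0 := pow_ne_zero 2 hs
  rw [neg_div, neg_div, div_div, mul_comm (Complex.cos (z / 2) ^ 2), ← div_div,
    mul_div_cancel_left₀ _ h6]

theorem sgn_cons (p : ℕ × ℂ) (l : List (ℕ × ℂ)) : sgn (p :: l) = -sgn l := by
  unfold sgn bl
  rw [List.length_cons]
  by_cases h : l.length % 2 = 0
  · have h2 : ¬ (l.length + 1) % 2 = 0 := by omega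
    simp [h, h2]
  · have h2 : (l.length + 1) % 2 = 0 := by omega
    simp [h, h2]

/-- the partial sums -/
theorem part (hF : S_FANG) (hV : S_HV) (hH : S_HLOC) (hD : S_DSYM) (dl : ℂ → ℂ → ℂ) :
    ∀ (l : List (ℕ × ℂ)) (p : ℕ × ℂ) (t : ℂ), Chn dl (p :: l) t →
      (∀ j : ℕ, 1 ≤ j → j + 1 < sm (p :: l) → Qc dl (p :: l) j ≠ 0) →
      ∑ j ∈ Ico 1 (sm (p :: l) - 1), 2 * Dv (Qc dl (p :: l) j ^ 2) =
        hsum dl (p :: l) + 2 * sgn l *
          HH (Complex.exp (-(Complex.I * (sgn l : ℂ) * p.2))) (Complex.exp (2 * Complex.I * t)) := by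
  intro l
  induction l with
  | nil =>
    rintro ⟨a, z⟩ t ⟨ha, hz, _, he, _, _⟩ hne
    simp only at ha hz he
    have hsm : sm [((a, z) : ℕ × ℂ)] = a := by simp [sm]
    rw [hsm] at hne ⊢
    have hQ : ∀ j : ℕ, Qc dl [((a, z) : ℕ × ℂ)] j = Uf (bl []) z (tl dl [] z) (j + 1) := by
      intro j
      have : ¬ j + 1 ≤ sm [] := by simp [sm]
      simp only [Qc]
      rw [if_neg this]
      simp [sm]
    have he' : (a : ℂ) * rh [] z + tl dl [] z + t = π := he
    have hU1 : Uf (bl []) z (tl dl [] z) 1 ^ 2 = 1 := by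
      have h0 : tl dl [] z = 0 := rfl
      rcases sgn_cases [] with ⟨hb, hs⟩ | ⟨hb, hs⟩
      · rw [Uf_true hb hs, h0, Nat.cast_one, one_mul, add_zero, div_self (sin_rh_ne [] hz), one_pow]
      · rw [Uf_false hb hs, h0, Nat.cast_one, one_mul, add_zero, div_self (sin_rh_ne [] hz),
          map_one, one_pow]
    have hnz : ∀ k : ℕ, 1 ≤ k → k < a → Complex.sin (k * rh [] z + tl dl [] z) ≠ 0 := by
      intro k hk1 hk2
      rcases Nat.eq_or_lt_of_le hk1 with h1 | h1
      · rw [← h1, Nat.cast_one, one_mul]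
        have h0 : tl dl [] z = 0 := rfl
        rw [h0, add_zero]
        exact sin_rh_ne [] hz
      · apply Uf_ne
        have := hne (k - 1) (by omega) (by omega)
        rw [hQ, Nat.sub_add_cancel hk1] at this
        exact this
    have h1 := region hF hD (by omega) hz he' hnz
    have h2 : ∑ j ∈ Ico 1 (a - 1), 2 * Dv (Qc dl [((a, z) : ℕ × ℂ)] j ^ 2) =
        ∑ k ∈ Ico 1 a, 2 * Dv (Uf (bl []) z (tl dl [] z) k ^ 2) := by
      rw [Finset.sum_eq_sum_Ico_succ_bot (show 1 < a by omega), hU1, Dv_one', mul_zero, zero_add]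
      have h3 := Finset.sum_Ico_add' (fun k => 2 * Dv (Uf (bl []) z (tl dl [] z) k ^ 2)) 1 (a - 1) 1
      rw [Nat.sub_add_cancel (by omega : 1 ≤ a)] at h3
      rw [← h3]
      apply Finset.sum_congr rfl
      intro j _
      rw [hQ]
    rw [h2, h1]
    have h0 : tl dl [] z = 0 := rfl
    have h4 : hsum dl [((a, z) : ℕ × ℂ)] = 0 := by simp [hsum]
    rw [h0, mul_zero, Complex.exp_zero, HH_one', h4]
    ring
  | cons p' l' ih =>
    rintro ⟨a, z⟩ t ⟨ha, hz, _, he, hP, hC⟩ hne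
    simp only at ha hz he hP hC
    obtain ⟨a', z'⟩ := p'
    have hP' : HP z' z (2 * π * dl z' z) := hP (a', z') (by simp)
    have ha' : 10 ≤ a' := hC.1
    have hz' : 0 < z'.im := hC.2.1
    have heq' : (a' : ℂ) * rh l' z' + tl dl l' z' + tt z' (2 * π * dl z' z) = π := hC.2.2.2.1
    set l : List (ℕ × ℂ) := (a', z') :: l' with hl
    have hsl : sm l = a' + sm l' := rfl
    have hsm : sm (((a, z) : ℕ × ℂ) :: l) = a + sm l := rfl
    rw [hsm] at hne ⊢
    have hQ1 : ∀ j : ℕ, j + 1 ≤ sm l → Qc dl (((a, z) : ℕ × ℂ) :: l) j = Qc dl l j := by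
      intro j hj
      simp only [Qc]
      rw [if_pos hj]
    have hQ2 : ∀ j : ℕ, ¬ j + 1 ≤ sm l → Qc dl (((a, z) : ℕ × ℂ) :: l) j =
        Uf (bl l) z (tl dl l z) (j + 1 - sm l) := by
      intro j hj
      simp only [Qc]
      rw [if_neg hj]
    have hne' : ∀ j : ℕ, 1 ≤ j → j + 1 < sm l → Qc dl l j ≠ 0 := by
      intro j hj1 hj2
      rw [← hQ1 j hj2.le]
      exact hne j hj1 (by omega)
    have hI := ih (a', z') (tr dl l z) hC hne'
    -- the hinge
    have hh : Dv (Qc dl l (sm l - 1) ^ 2) =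
        sgn l' * Dv (-((1 + Complex.cos z) / (1 + Complex.cos z'))) := by
      have h1 : Qc dl l (sm l - 1) = Uf (bl l') z' (tl dl l' z') a' := by
        have hlt : ¬ sm l - 1 + 1 ≤ sm l' := by omega
        have e : sm l - 1 + 1 - sm l' = a' := by omega
        rw [hl]
        simp only [Qc]
        rw [← hl, if_neg hlt, e]
      rw [h1]
      exact hinge hH hD hz' hP' heq'
    -- the region
    have hnz : ∀ k : ℕ, 1 ≤ k → k < a → Complex.sin (k * rh l z + tl dl l z) ≠ 0 := by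
      intro k hk1 hk2
      apply Uf_ne
      have h1 : ¬ (k + sm l - 1) + 1 ≤ sm l := by omega
      have h2 := hne (k + sm l - 1) (by omega) (by omega)
      rw [hQ2 _ h1] at h2
      have e : k + sm l - 1 + 1 - sm l = k := by omega
      rw [e] at h2
      exact h2
    have hR := region hF hD (by omega) hz he hnz
    -- splitting
    have hs1 : 1 ≤ sm l - 1 := by omega
    have hsplit : ∑ j ∈ Ico 1 (a + sm l - 1), 2 * Dv (Qc dl (((a, z) : ℕ × ℂ) :: l) j ^ 2) =
        ∑ j ∈ Ico 1 (sm l - 1), 2 * Dv (Qc dl l j ^ 2) + (2 * Dv (Qc dl l (sm l - 1) ^ 2) +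
          ∑ k ∈ Ico 1 a, 2 * Dv (Uf (bl l) z (tl dl l z) k ^ 2)) := by
      rw [← Finset.sum_Ico_consecutive _ hs1 (show sm l - 1 ≤ a + sm l - 1 by omega)]
      congr 1
      · apply Finset.sum_congr rfl
        intro j hj
        rw [Finset.mem_Ico] at hj
        rw [hQ1 j (by omega)]
      · rw [Finset.sum_eq_sum_Ico_succ_bot (show sm l - 1 < a + sm l - 1 by omega),
          hQ1 (sm l - 1) (by omega)]
        congr 1
        have e1 : sm l - 1 + 1 = 1 + (sm l - 1) := by omega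
        have e2 : a + sm l - 1 = a + (sm l - 1) := by omega
        rw [e1, e2]
        rw [← Finset.sum_Ico_add' (fun j => 2 * Dv (Qc dl (((a, z) : ℕ × ℂ) :: l) j ^ 2)) 1 a
          (sm l - 1)]
        apply Finset.sum_congr rfl
        intro k hk
        rw [Finset.mem_Ico] at hk
        have h1 : ¬ (k + (sm l - 1)) + 1 ≤ sm l := by omega
        rw [hQ2 _ h1]
        have e : k + (sm l - 1) + 1 - sm l = k := by omega
        rw [e]
    rw [hsplit, hI, hh, hR]
    have hsg : sgn l = -sgn l' := sgn_cons _ _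
    have hsg' : sgn l' = 1 ∨ sgn l' = -1 := by
      rcases sgn_cases l' with ⟨_, h⟩ | ⟨_, h⟩
      · exact Or.inl h
      · exact Or.inr h
    have hv1 := hV z' z (2 * π * dl z' z) hP' (sgn l') hsg'
    have hhs : hsum dl (((a, z) : ℕ × ℂ) :: l) = hv z' z (2 * π * dl z' z) + hsum dl l := by
      rw [hl]
      simp [hsum]
    have htl : tl dl l z = tt z (2 * π * dl z' z) := rfl
    have htr : tr dl l z = tt z' (2 * π * dl z' z) := rfl
    rw [hhs, htl, htr, ← hv1, hsg]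
    push_cast
    have e1 : -(Complex.I * -(sgn l' : ℂ) * z) = Complex.I * (sgn l' : ℂ) * z := by ring
    rw [e1]
    ring

theorem chv (hF : S_FANG) (hV : S_HV) (hH : S_HLOC) (hD : S_DSYM) (hC : S_CHN) : S_CHV := by
  intro dl L hL hL0
  classical
  obtain ⟨p, l, rfl⟩ : ∃ p l, L = p :: l := by
    cases L with
    | nil => simp at hL
    | cons p l => exact ⟨p, l, rfl⟩
  have hsol := hC dl (p :: l) hL hL0
  obtain ⟨a, z⟩ := p
  have ha : 10 ≤ a := hL0.1
  have hz : 0 < z.im := hL0.2.1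
  have he : (a : ℂ) * rh l z + tl dl l z + 0 = π := hL0.2.2.2.1
  have hsm : sm (((a, z) : ℕ × ℂ) :: l) = a + sm l := rfl
  have hlast : Qc dl (((a, z) : ℕ × ℂ) :: l) (a + sm l - 2) ^ 2 = 1 := by
    have h1 : Qc dl (((a, z) : ℕ × ℂ) :: l) (a + sm l - 2) =
        Uf (bl l) z (tl dl l z) (a - 1) := by
      have hlt : ¬ a + sm l - 2 + 1 ≤ sm l := by omega
      have e : a + sm l - 2 + 1 - sm l = a - 1 := by omega
      simp only [Qc]
      rw [if_neg hlt, e]
    have h2 : Complex.sin (((a - 1 : ℕ) : ℂ) * rh l z + tl dl l z) = Complex.sin (rh l z) := by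
      have : ((a - 1 : ℕ) : ℂ) * rh l z + tl dl l z = π - rh l z := by
        rw [← he, Nat.cast_sub (by omega)]
        push_cast
        ring
      rw [this, Complex.sin_pi_sub]
    rw [h1]
    rcases sgn_cases l with ⟨hb, hs⟩ | ⟨hb, hs⟩
    · rw [Uf_true hb hs, h2, div_self (sin_rh_ne l hz), one_pow]
    · rw [Uf_false hb hs, h2, div_self (sin_rh_ne l hz), map_one, one_pow]
  have hne : ∀ j : ℕ, 1 ≤ j → j + 1 < sm (((a, z) : ℕ × ℂ) :: l) →
      Qc dl (((a, z) : ℕ × ℂ) :: l) j ≠ 0 := by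
    intro j hj1 hj2
    rw [hsm] at hj2
    by_cases h : j < sm (((a, z) : ℕ × ℂ) :: l) - 2
    · have h1 := (hsol.pos j hj1 h).1
      intro h0
      rw [h0] at h1
      simp at h1
    · rw [hsm] at h
      have hj : j = a + sm l - 2 := by omega
      rw [hj]
      intro h0
      rw [h0] at hlast
      norm_num at hlast
  have hp := part hF hV hH hD dl l (a, z) 0 hL0 hne
  rw [mul_zero, Complex.exp_zero, HH_one', mul_zero, add_zero, hsm] at hp
  rw [hsm, ← hp]
  have e : a + sm l - 1 = (a + sm l - 2) + 1 := by omega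
  rw [e, Finset.sum_Ico_succ_top (by omega), hlast, Dv_one', mul_zero, add_zero]

end Pool.Agent.W583.HT
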