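import Pool.Agent.W711.HT.Stm

namespace Pool.Agent.W583.HT

open Filter Topology
open Pool.Agent.W711.HT

theorem seq : S_SEQ := by
  intro E _ K hK u Φ hΦ hseq ε hε
  by_contra hcon
  -- frequently there is a bad point
  have hfreq : ∃ᶠ N : ℕ in atTop, ∃ p ∈ K, ε < |u N p - Φ p| := by
    intro h
    apply hcon
    filter_upwards [h] with N hN p hp
    by_contra hlt
    exact hN ⟨p, hp, not_le.mp hlt⟩
  obtain ⟨φ, hφ, hbad⟩ := extraction_of_frequently_atTop hfreq
  choose q hqK hq using hbad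
  obtain ⟨p₀, hp₀, ψ, hψ, hlim⟩ := hK.tendsto_subseq hqK
  -- strictly increasing indices
  set θ : ℕ → ℕ := φ ∘ ψ with hθ
  have hθm : StrictMono θ := hφ.comp hψ
  classical
  let p : ℕ → E := fun N => if h : ∃ k, θ k = N then q (ψ h.choose) else p₀
  have hpθ : ∀ k, p (θ k) = q (ψ k) := by
    intro k
    have hex : ∃ j, θ j = θ k := ⟨k, rfl⟩
    have : p (θ k) = q (ψ hex.choose) := by
      simp only [p]
      rw [dif_pos hex]
    rw [this, hθm.injective hex.choose_spec]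
  have hpK : ∀ N, p N ∈ K := by
    intro N
    by_cases h : ∃ k, θ k = N
    · simp only [p, dif_pos h]
      exact hqK _
    · simp only [p, dif_neg h]
      exact hp₀
  have hpt : Tendsto p atTop (𝓝 p₀) := by
    rw [Metric.tendsto_atTop] at hlim ⊢
    intro δ hδ
    obtain ⟨k₀, hk₀⟩ := hlim δ hδ
    refine ⟨θ k₀, fun N hN => ?_⟩
    by_cases h : ∃ k, θ k = N
    · obtain ⟨k, rfl⟩ := h
      rw [hpθ]
      exact hk₀ k (hθm.le_iff_le.mp hN)
    · simp only [p, dif_neg h]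
      simpa using hδ
  have h1 := hseq p p₀ hp₀ hpK hpt
  have h2 : Tendsto (fun k => u (θ k) (p (θ k))) atTop (𝓝 (Φ p₀)) :=
    h1.comp hθm.tendsto_atTop
  have h3 : Tendsto (fun k => Φ (q (ψ k))) atTop (𝓝 (Φ p₀)) := by
    have hc : Tendsto Φ (𝓝[K] p₀) (𝓝 (Φ p₀)) := hΦ p₀ hp₀
    refine hc.comp ?_
    rw [tendsto_nhdsWithin_iff]
    exact ⟨hlim, Eventually.of_forall fun k => hqK _⟩
  have h4 : Tendsto (fun k => |u (θ k) (p (θ k)) - Φ (q (ψ k))|) atTop (𝓝 0) := by
    have := (h2.sub h3).abs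
    simpa using this
  have h5 : ∀ k, ε < |u (θ k) (p (θ k)) - Φ (q (ψ k))| := by
    intro k
    rw [hpθ]
    exact hq (ψ k)
  have h6 := ge_of_tendsto h4 (Eventually.of_forall fun k => (h5 k).le)
  linarith

end Pool.Agent.W583.HT
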