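import Pool.Agent.W894.HT.Lib

/-!
Project HT: the permanent reduces to the number of Hamiltonian paths of tournaments.
-/

set_option autoImplicit false

namespace Pool.Agent.NPC.W583HTXred

open Pool.Agent.W894.HT
open Pool.Agent.NPC Pool.Agent.NPC.Cnt
open Pool.Agent.NPC.H549NRed (NRed)
open Pool.Agent.NPC.H549Convex (LL upoly_fact poly_prod sqB sqB_poly)

section

variable {α : Type} [TEnc α]

theorem upow {m n : α → ℕ} (hm : Poly m) (hn : UPoly n) : Poly (fun a => m a ^ n a) := by
  have h1 : Poly (fun a => (List.range (n a)).map (fun _ => m a)) :=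
    Poly.map (F := fun a _ => m a) hn.range (hm.comp (Poly.fst Poly.id))
  refine (poly_prod h1).congr fun a => ?_
  rw [List.map_const', List.prod_replicate, List.length_range]

theorem mx_upoly {n : α → ℕ} (hn : UPoly n) : UPoly (fun a => MX (n a)) := by
  have h : UPoly (fun a => n a * (4 * (n a * n a) + 2 * n a + 2)) :=
    hn.mul (((UPoly.const 4).mul (hn.mul hn)).add ((UPoly.const 2).mul hn) |>.add (UPoly.const 2))
  have e : (fun a => MX (n a)) = fun a => n a * (4 * (n a * n a) + 2 * n a + 2) := by
    funext a
    unfold MX
    ring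
  rw [e]
  exact h

theorem en_poly {B : α → LL} {i j : α → ℕ} (hB : Poly B) (hi : Poly i) (hj : Poly j) :
    Poly (fun a => en (B a) (i a) (j a)) :=
  Poly.getD (Poly.getD hB hi (Poly.const [])) hj (Poly.const false)

theorem half_poly {B : α → LL} {p q : α → ℕ} (hB : Poly B) (hp : Poly p) (hq : Poly q) :
    Poly (fun a => decide (1 ≤ p a ∧ p a ≤ (B a).length ∧
      (B a).length + MX (B a).length < q a ∧ q a ≤ 2 * (B a).length + MX (B a).length) &&
      en (B a) (p a - 1) (q a - (B a).length - MX (B a).length - 1)) := by
  have hl : Poly (fun a => (B a).length) := Poly.length hB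
  have hM : Poly (fun a => MX (B a).length) := (mx_upoly (UPoly.length hB)).toPoly
  refine Poly.and ?_ ?_
  · exact Poly.decide_and (Poly.decide_le (Poly.const 1) hp)
      (Poly.decide_and (Poly.decide_le hp hl)
        (Poly.decide_and (Poly.decide_lt (Poly.add hl hM) hq)
          (Poly.decide_le hq (Poly.add (Poly.mul (Poly.const 2) hl) hM))))
  · exact en_poly hB (Poly.sub hp (Poly.const 1))
      (Poly.sub (Poly.sub (Poly.sub hq hl) hM) (Poly.const 1))

theorem fb_poly {B : α → LL} {p q : α → ℕ} (hB : Poly B) (hp : Poly p) (hq : Poly q) :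
    Poly (fun a => Fb (B a).length (MX (B a).length) (en (B a)) (p a) (q a)) :=
  Poly.or (half_poly hB hp hq) (half_poly hB hq hp)

end

theorem tmX_poly : Poly tmX := by
  have hN : UPoly (fun B : LL => 2 * B.length + MX B.length) :=
    ((UPoly.const 2).mul (UPoly.length Poly.id)).add (mx_upoly (UPoly.length Poly.id))
  have hB : Poly (fun z : (LL × ℕ) × ℕ => z.1.1) := Poly.fst (Poly.fst Poly.id)
  have hi : Poly (fun z : (LL × ℕ) × ℕ => z.1.2) := Poly.snd (Poly.fst Poly.id)
  have hj : Poly (fun z : (LL × ℕ) × ℕ => z.2) := Poly.snd Poly.id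
  have hF : Poly (fun z : (LL × ℕ) × ℕ => Fb z.1.1.length (MX z.1.1.length) (en z.1.1)
      (z.1.2 + 1) (z.2 + 1)) := fb_poly hB (Poly.succ hi) (Poly.succ hj)
  have h1 : Poly (fun z : (LL × ℕ) × ℕ =>
      if z.1.2 < z.2 then !Fb z.1.1.length (MX z.1.1.length) (en z.1.1) (z.1.2 + 1) (z.2 + 1)
      else if z.2 < z.1.2 then Fb z.1.1.length (MX z.1.1.length) (en z.1.1) (z.1.2 + 1) (z.2 + 1)
      else false) :=
    Poly.ite (Poly.decide_lt hi hj) (Poly.not hF)
      (Poly.ite (Poly.decide_lt hj hi) hF (Poly.const false))
  have h2 : Poly (fun p : LL × ℕ => (List.range (2 * p.1.length + MX p.1.length)).map fun j =>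
      if p.2 < j then !Fb p.1.length (MX p.1.length) (en p.1) (p.2 + 1) (j + 1)
      else if j < p.2 then Fb p.1.length (MX p.1.length) (en p.1) (p.2 + 1) (j + 1)
      else false) :=
    Poly.map (F := fun (p : LL × ℕ) j =>
      if p.2 < j then !Fb p.1.length (MX p.1.length) (en p.1) (p.2 + 1) (j + 1)
      else if j < p.2 then Fb p.1.length (MX p.1.length) (en p.1) (p.2 + 1) (j + 1)
      else false) (hN.comp (Poly.fst Poly.id)).range h1
  exact Poly.map (F := fun (B : LL) i => (List.range (2 * B.length + MX B.length)).map fun j =>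
      if i < j then !Fb B.length (MX B.length) (en B) (i + 1) (j + 1)
      else if j < i then Fb B.length (MX B.length) (en B) (i + 1) (j + 1)
      else false) hN.range h2

/-- the value from the answer -/
def post (p : LL × List ℕ) : ℕ :=
  if p.1.length = 0 then 1 else
    if sqB p.1 = true then
      (2 * p.2.getD 0 0 + (p.1.length + 1) ^ MX p.1.length) /
        (2 * (p.1.length + 1) ^ MX p.1.length) / p.1.length.factorial
    else 0

theorem post_poly : Poly post := by
  have hl : UPoly (fun p : LL × List ℕ => p.1.length) := UPoly.length (Poly.fst Poly.id)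
  have hpw : Poly (fun p : LL × List ℕ => (p.1.length + 1) ^ MX p.1.length) :=
    upow (Poly.succ hl.toPoly) (mx_upoly hl)
  refine Poly.ite (Poly.decide_eq hl.toPoly (Poly.const 0)) (Poly.const 1) ?_
  refine Poly.ite (Poly.decide_bool (sqB_poly.comp (Poly.fst Poly.id))) ?_ (Poly.const 0)
  exact Poly.div (Poly.div (Poly.add (Poly.mul (Poly.const 2)
    (Poly.getD (Poly.snd Poly.id) (Poly.const 0) (Poly.const 0))) hpw)
    (Poly.mul (Poly.const 2) hpw)) (upoly_fact hl)

/-- the permanent counts permutations -/
theorem F_eq (B : LL) (h : ∀ r ∈ B, r.length = B.length) :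
    Pool.Agent.H549R2.Convex.F B =
      Nat.card {σ : Equiv.Perm (Fin B.length) // ∀ i, en B i.val (σ i).val = true} := by
  classical
  unfold Pool.Agent.H549R2.Convex.F
  rw [if_pos h]
  unfold Matrix.permanent
  have h1 : ∀ σ : Equiv.Perm (Fin B.length), (∏ i, (Matrix.of fun i j : Fin B.length =>
      if (B.getD i.val []).getD j.val false = true then (1 : ℕ) else 0) (σ i) i) =
      if ∀ i, en B (σ i).val i.val = true then 1 else 0 := by
    intro σ
    split_ifs with hσ
    · refine Finset.prod_eq_one fun i _ => ?_
      exact if_pos (hσ i)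
    · push Not at hσ
      obtain ⟨i, hi⟩ := hσ
      exact Finset.prod_eq_zero (Finset.mem_univ i) (if_neg hi)
  rw [Finset.sum_congr rfl fun σ _ => h1 σ]
  have h2 : ∑ σ : Equiv.Perm (Fin B.length),
      (if ∀ i, en B (σ i).val i.val = true then 1 else 0) =
      ∑ σ : Equiv.Perm (Fin B.length), if ∀ i, en B i.val (σ i).val = true then 1 else 0 := by
    refine Fintype.sum_equiv (Equiv.inv _) _ _ fun σ => ?_
    have h3 : (∀ i, en B (σ i).val i.val = true) ↔
        ∀ i, en B i.val (((Equiv.inv (Equiv.Perm (Fin B.length))) σ) i).val = true := by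
      rw [Equiv.inv_apply]
      constructor
      · intro h i
        have := h (σ⁻¹ i)
        have e : σ (σ⁻¹ i) = i := Equiv.apply_symm_apply σ i
        rwa [e] at this
      · intro h i
        have := h (σ i)
        have e : σ⁻¹ (σ i) = i := Equiv.symm_apply_apply σ i
        rwa [e] at this
    simp only [h3]
  rw [h2, Nat.card_eq_fintype_card, Fintype.card_subtype, Finset.card_filter]

/-- XRED -/
theorem main : S_XMAIN → S_XHP → S_XNUM → S_XMAT → S_XRED := by
  intro hmain hhp hnum hmat
  refine ⟨fun B => [tmX B], post, ?_, post_poly, ?_⟩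
  · exact Poly.cons tmX_poly (Poly.const [])
  · intro B _
    refine ⟨?_, ?_⟩
    · intro b hb
      rw [List.mem_singleton] at hb
      rw [hb]
      exact (hmat B).1
    · unfold post
      simp only [List.map_cons, List.map_nil, List.getD_cons_zero]
      split_ifs with h0 hsq
      · rw [List.length_eq_zero_iff] at h0
        subst h0
        rw [F_eq [] (by simp)]
        symm
        rw [Nat.card_eq_fintype_card, Fintype.card_eq_one_iff]
        refine ⟨⟨1, fun i => i.elim0⟩, fun σ => ?_⟩
        apply Subtype.ext
        apply Equiv.ext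
        intro i
        exact i.elim0
      · have hs : ∀ r ∈ B, r.length = B.length := by
          unfold sqB at hsq
          rw [List.all_eq_true] at hsq
          intro r hr
          exact of_decide_eq_true (hsq r hr)
        have hn : 1 ≤ B.length := by omega
        have hM : 1 ≤ MX B.length := by
          unfold MX
          exact Nat.mul_pos hn (by omega)
        rw [F_eq B hs]
        set P := Nat.card {σ : Equiv.Perm (Fin B.length) // ∀ i, en B i.val (σ i).val = true}
          with hP
        have e1 := hhp B.length (MX B.length) (en B) hM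
        rw [← (hmat B).2] at e1
        have e2 := hmain B.length (MX B.length) (en B) hn hM
        rw [← e1, ← hP] at e2
        have e3 := hnum B.length hn
        set h := numHP (tmX B)
        set n := B.length
        set K := (n + 1) ^ MX n with hK
        set E := (2 * n).factorial * 4 ^ n * n ^ MX n
        have e4 : ((n : ℤ) + 1) ^ MX n = (K : ℤ) := by rw [hK]; push_cast; rfl
        rw [e4] at e2
        obtain ⟨a1, a2⟩ := abs_le.1 e2
        have hK0 : 0 < K := by rw [hK]; positivity
        have b1 : n.factorial * P * K ≤ h + E := by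
          zify
          push_cast at a1 a2
          linarith
        have b2 : h ≤ n.factorial * P * K + E := by
          zify
          push_cast at a1 a2
          linarith
        have b3 : (2 * h + K) / (2 * K) = n.factorial * P := by
          apply Nat.div_eq_of_lt_le
          · nlinarith
          · nlinarith
        rw [b3, Nat.mul_div_cancel_left _ (Nat.factorial_pos n)]
      · unfold Pool.Agent.H549R2.Convex.F
        rw [if_neg]
        intro hs
        apply hsq
        unfold sqB
        rw [List.all_eq_true]
        intro r hr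
        exact decide_eq_true (hs r hr)

end Pool.Agent.NPC.W583HTXred
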