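import Pool.Agent.W886.MZ.Stm0

/-! Project MZ, part MZ-COD: the coding. -/

set_option autoImplicit false

namespace Pool.Agent.W583.MZCOD

open Pool.Agent.NPC Pool.Agent.H620R2.Gauge Pool.Agent.W886.MZ

theorem cs_inj (e e' m m' : ℕ) (h : cs e m = cs e' m') : e = e' ∧ m = m' := by
  unfold cs at h
  induction e generalizing e' with
  | zero =>
    cases e' with
    | zero =>
      simp only [List.replicate_zero, List.nil_append, List.cons.injEq, true_and] at h
      have h1 := congrArg List.length h
      simp only [List.length_replicate] at h1
      exact ⟨rfl, Nat.pow_right_injective (le_refl 2) h1⟩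
    | succ e' => simp [List.replicate_succ] at h
  | succ e ih =>
    cases e' with
    | zero => simp [List.replicate_succ] at h
    | succ e' =>
      simp only [List.replicate_succ, List.cons_append, List.cons.injEq, true_and] at h
      obtain ⟨h1, h2⟩ := ih e' h
      exact ⟨by rw [h1], h2⟩

open Classical in
/-- the changed oracle -/
noncomputable def build (h : ℕ → Bool) (Q : ℕ → ℕ → Oracle → Prop) (O : Oracle) :
    List Bool → Bool := fun y =>
  if hy : ∃ em : ℕ × ℕ, h em.2 = true ∧ em.1 < rk h em.2 ∧ y = cs em.1 em.2 then
    decide (Q hy.choose.1 hy.choose.2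
      (fun z => if _hz : z.length < y.length then build h Q O z else false))
  else O y
termination_by y => y.length
decreasing_by exact _hz

theorem task : Pool.Agent.W886.MZ.S_COD := by
  classical
  intro h Q O
  refine ⟨build h Q O, ?_, ?_⟩
  · intro y hy
    rw [build]
    rw [dif_neg]
    rintro ⟨⟨e, m⟩, h1, h2, h3⟩
    exact hy e m h1 h2 h3
  · intro e m h1 h2
    have hex : ∃ em : ℕ × ℕ, h em.2 = true ∧ em.1 < rk h em.2 ∧ cs e m = cs em.1 em.2 :=
      ⟨(e, m), h1, h2, rfl⟩
    have hc := cs_inj _ _ _ _ hex.choose_spec.2.2
    have e1 : (fun z : List Bool =>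
        if _hz : z.length < (cs e m).length then build h Q O z else false) =
        fun z => if z.length < (cs e m).length then build h Q O z else false := by
      funext z
      split_ifs <;> rfl
    rw [build, dif_pos hex, decide_eq_true_iff, ← hc.1, ← hc.2, e1]

end Pool.Agent.W583.MZCOD
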