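import Pool.Agent.W921.VP.DefsB

set_option autoImplicit false

/-!
VP-DEC: truth in the decoded structure.
-/

namespace Pool.Agent.W583.VPDec

open FirstOrder Set
open FirstOrder.Language (Theory BoundedFormula)
open Pool.Agent.W921.VP

section

variable {L : FirstOrder.Language.{0, 0}} {X : Type} {T : L.Theory} {N : (TL L).Structure X}

theorem ent_unique (h : Ax T N) {n : ℕ} {a : Fin n → Pt N} {x y : X} (hx : Ent N x a)
    (hy : Ent N y a) : x = y := by
  by_contra hne
  obtain ⟨z, i, hz, hz'⟩ := h.ext n x y hx.1 hy.1 hne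
  have h1 : z = (a i : X) := h.sub_fun _ _ _ _ _ _ hz (hx.2 i)
  exact hz' (h1 ▸ hy.2 i)

theorem ent_inj (h : Ax T N) {n : ℕ} {a b : Fin n → Pt N} {x : X} (hx : Ent N x a)
    (hy : Ent N x b) : a = b := by
  funext i
  exact Subtype.ext (h.sub_fun _ _ _ _ _ _ (hx.2 i) (hy.2 i))

theorem ent_of_len (h : Ax T N) {n : ℕ} {x : X} (hx : Len N n x) :
    ∃ a : Fin n → Pt N, Ent N x a := by
  have h1 : ∀ i : Fin n, ∃ y, Sub N n 1 (fun _ => i) x y := fun i => h.sub_tot n 1 _ x hx
  choose y hy using h1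
  exact ⟨fun i => ⟨y i, (h.sub_len _ _ _ _ _ (hy i)).2⟩, hx, fun i => hy i⟩

theorem ent_sub (h : Ax T N) {n k : ℕ} {v : Fin k → Fin n} {x y : X} {a : Fin n → Pt N}
    (hx : Ent N x a) (hs : Sub N n k v x y) : Ent N y (a ∘ v) := by
  obtain ⟨b, hb⟩ := ent_of_len h (h.sub_len _ _ _ _ _ hs).2
  have h1 : b = a ∘ v := by
    funext j
    have h2 : Sub N n 1 (v ∘ fun _ => j) x (b j) := h.sub_comp _ _ _ _ _ _ _ _ hs (hb.2 j)
    have h3 : Sub N n 1 (fun _ => v j) x (a (v j)) := hx.2 (v j)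
    exact Subtype.ext (h.sub_fun n 1 (fun _ => v j) x _ _ h2 h3)
  rw [← h1]
  exact hb

theorem ent_snoc (h : Ax T N) {n : ℕ} {x z : X} {a : Fin n → Pt N} {b : Pt N} (hx : Ent N x a)
    (h1 : Sub N (n + 1) n Fin.castSucc z x)
    (h2 : Sub N (n + 1) 1 (fun _ => Fin.last n) z b) :
    Ent N z (Fin.snoc (α := fun _ => Pt N) a b) := by
  refine ⟨(h.sub_len _ _ _ _ _ h1).1, ?_⟩
  intro i
  refine Fin.lastCases ?_ (fun j => ?_) i
  · rw [Fin.snoc_last]
    exact h2
  · rw [Fin.snoc_castSucc]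
    exact h.sub_comp (n + 1) n 1 Fin.castSucc (fun _ => j) z x _ h1 (hx.2 j)

theorem ent_exists (h : Ax T N) : ∀ (n : ℕ) (a : Fin n → Pt N), ∃ x, Ent N x a := by
  intro n
  induction n with
  | zero =>
    intro a
    obtain ⟨x, hx⟩ := h.nil
    exact ⟨x, hx, fun i => i.elim0⟩
  | succ n ih =>
    intro a
    obtain ⟨x, hx⟩ := ih (fun i => a i.castSucc)
    obtain ⟨z, hz1, hz2⟩ := h.amalg n x (a (Fin.last n)) hx.1 (a (Fin.last n)).2
    refine ⟨z, ?_⟩
    have h1 := ent_snoc h hx hz1 hz2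
    have h2 : Fin.snoc (α := fun _ => Pt N) (fun i => a i.castSucc) (a (Fin.last n)) = a := by
      funext i
      refine Fin.lastCases ?_ (fun j => ?_) i
      · rw [Fin.snoc_last]
      · rw [Fin.snoc_castSucc]
    rw [h2] at h1
    exact h1

theorem term_var [L.IsRelational] {n : ℕ} (t : L.Term (Empty ⊕ Fin n)) :
    ∃ i : Fin n, t = Language.Term.var (Sum.inr i) := by
  cases t with
  | var s =>
    rcases s with e | i
    · exact e.elim
    · exact ⟨i, rfl⟩
  | func f ts => exact isEmptyElim f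

theorem truth [L.IsRelational] (h : Ax T N) {n : ℕ} (φ : L.BoundedFormula Empty n) :
    ∀ (x : X) (a : Fin n → Pt N), Ent N x a →
      (Sat N n φ x ↔ @BoundedFormula.Realize L (Pt N) (dec N) Empty n φ Empty.elim a) := by
  letI : L.Structure (Pt N) := dec N
  induction φ with
  | falsum =>
    intro x a _
    exact ⟨fun hs => absurd hs (h.sat_fal _ x), fun hs => hs.elim⟩
  | @equal n t₁ t₂ =>
    intro x a hx
    obtain ⟨i, rfl⟩ := term_var t₁
    obtain ⟨j, rfl⟩ := term_var t₂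
    have h1 := h.sat_eq n i j x (a i) (a j) (hx.2 i) (hx.2 j)
    unfold eqF at h1
    rw [h1]
    exact ⟨fun e => Subtype.ext e, fun e => congrArg Subtype.val e⟩
  | @rel n k R ts =>
    intro x a hx
    have h1 : ∀ j, ∃ i : Fin n, ts j = Language.Term.var (Sum.inr i) := fun j => term_var (ts j)
    choose v hv using h1
    obtain rfl : ts = fun j => Language.Term.var (Sum.inr (v j)) := funext hv
    obtain ⟨y, hy⟩ := h.sub_tot n k v x hx.1
    have h2 := h.sat_rel n k R v x y hy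
    unfold relF at h2
    rw [h2]
    have hy' : Ent N y (a ∘ v) := ent_sub h hx hy
    constructor
    · intro hs
      exact ⟨y, hy', hs⟩
    · rintro ⟨y', hy1, hy2⟩
      have : y' = y := ent_unique h hy1 hy'
      rw [← this]
      exact hy2
  | @imp n φ ψ ih1 ih2 =>
    intro x a hx
    rw [h.sat_imp n φ ψ x hx.1, ih1 x a hx, ih2 x a hx]
    exact Iff.rfl
  | @all n φ ih =>
    intro x a hx
    constructor
    · intro hs b
      obtain ⟨z, hz1, hz2⟩ := h.amalg n x b hx.1 b.2
      exact (ih z _ (ent_snoc h hx hz1 hz2)).1 (h.sat_all n φ x z hz1 hs)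
    · intro hr
      by_contra hns
      obtain ⟨y, hy1, hy2⟩ := h.sat_ex n φ x hx.1 hns
      obtain ⟨c, hc⟩ := ent_of_len h (h.sub_len _ _ _ _ _ hy1).1
      have h1 : Ent N y (Fin.snoc (α := fun _ => Pt N) a (c (Fin.last n))) :=
        ent_snoc h hx hy1 (hc.2 (Fin.last n))
      exact hy2 ((ih y _ h1).2 (hr (c (Fin.last n))))

end

theorem task : S_DEC := by
  intro L _ T X N h
  refine ⟨?_, ?_, ?_, ?_, ?_⟩
  · intro n a
    obtain ⟨x, hx⟩ := ent_exists h n a
    exact ⟨x, hx, fun y hy => ent_unique h hy hx⟩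
  · intro n x hx
    exact ent_of_len h hx
  · intro n x a φ hx
    exact truth h φ x a hx
  · letI : L.Structure (Pt N) := dec N
    refine ⟨fun σ hσ => ?_⟩
    obtain ⟨x, hx⟩ := h.nil
    obtain ⟨a, ha⟩ := ent_of_len h hx
    have h1 := (truth h (σ : L.BoundedFormula Empty 0) x a ha).1 (h.sat_T σ hσ x hx)
    have e1 : (Empty.elim : Empty → Pt N) = default := Subsingleton.elim _ _
    have e2 : a = default := Subsingleton.elim _ _
    rw [e1, e2] at h1
    exact h1
  · by_contra hfin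
    haveI : Finite (Pt N) := not_infinite_iff_finite.mp hfin
    obtain ⟨x, hx, hne⟩ := h.inf (Nat.card (Pt N) + 1)
    obtain ⟨a, ha⟩ := ent_of_len h hx
    have hinj : Function.Injective a := by
      intro i j hij
      by_contra hij'
      apply hne i j hij'
      rw [h.sat_eq _ i j x (a i) (a j) (ha.2 i) (ha.2 j), hij]
    have h1 := Nat.card_le_card_of_injective a hinj
    rw [Nat.card_eq_fintype_card, Fintype.card_fin] at h1
    omega

end Pool.Agent.W583.VPDec
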